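import Pool.Agent.ETCLH.Conv

/-!
# (K4), second part: structures of elementary type with a rigid element
-/

set_option autoImplicit false
set_option linter.unusedSectionVars false

namespace Pool.Agent.ETCT

open QS Pool.Agent.RFT Pool.Agent.ETG Pool.Agent.RFN Pool.Agent.AST Pool.Agent.ETCLH

/-- elements outside the proper subgroup `F` are rigid, and the commutant of `f` in `F` is inside
`F` for `f ≠ 1` -/
def HasF (S : QStruct) : Prop := ∃ F : Subgroup S.G, (∃ g, g ∉ F) ∧
  (∀ e, e ∉ F → ∀ y, S.q e y = S.zero → y = 1 ∨ y = e) ∧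
  (∀ f ∈ F, f ≠ 1 → ∀ y, S.q f y = S.zero → y ∈ F)

/-- there is a rigid element -/
def HasRig (S : QStruct) : Prop := ∃ g : S.G, g ≠ 1 ∧ ∀ y, S.q g y = S.zero → y = 1 ∨ y = g

theorem iso_zero {S T : QStruct} {e : S.G ≃* T.G}
    (h1 : ∀ a b c d, S.q a b = S.q c d ↔ T.q (e a) (e b) = T.q (e c) (e d)) (a b : S.G) :
    S.q a b = S.zero ↔ T.q (e a) (e b) = T.zero := by
  have := h1 a b a 1
  rwa [S.q_one, map_one, T.q_one] at this

theorem hasF_iso {S T : QStruct} (h : Iso S T) (hx : HasF S) : HasF T := by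
  obtain ⟨e, -, h1⟩ := h
  have h0 := iso_zero h1
  obtain ⟨F, ⟨g, hg⟩, h2, h3⟩ := hx
  have mem : ∀ a : S.G, e a ∈ F.comap e.symm.toMonoidHom ↔ a ∈ F := by
    intro a
    rw [Subgroup.mem_comap]
    show e.symm (e a) ∈ F ↔ _
    rw [e.symm_apply_apply]
  refine ⟨F.comap e.symm.toMonoidHom, ⟨e g, fun h => hg ((mem g).1 h)⟩, ?_, ?_⟩
  · intro a ha y hy
    obtain ⟨a, rfl⟩ := e.surjective a
    obtain ⟨y, rfl⟩ := e.surjective y
    rw [mem] at ha
    rcases h2 a ha y ((h0 a y).2 hy) with rfl | rfl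
    · exact Or.inl (map_one e)
    · exact Or.inr rfl
  · intro a ha ha1 y hy
    obtain ⟨a, rfl⟩ := e.surjective a
    obtain ⟨y, rfl⟩ := e.surjective y
    rw [mem] at ha ⊢
    exact h3 a ha (fun h => ha1 (by rw [h, map_one])) y ((h0 a y).2 hy)

theorem hasRig_iso {S T : QStruct} (h : Iso S T) (hx : HasRig T) : HasRig S := by
  obtain ⟨e, -, h1⟩ := h
  have h0 := iso_zero h1
  obtain ⟨g, hg1, hg⟩ := hx
  obtain ⟨g, rfl⟩ := e.surjective g
  refine ⟨g, fun h => hg1 (by rw [h, map_one]), fun y hy => ?_⟩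
  rcases hg (e y) ((h0 g y).1 hy) with h | h
  · left
    exact e.injective (by rw [h, map_one])
  · right
    exact e.injective h

theorem hasF_trivial {S : QStruct} (h : ∀ g : S.G, g = 1) : ¬ HasRig S := by
  rintro ⟨g, hg, -⟩
  exact hg (h g)

theorem hasF_prod_left {S T : QStruct} (ht : ∀ b : T.G, b = 1) (hS : HasF S) :
    HasF (QS.prod S T) := by
  obtain ⟨F, ⟨g, hg⟩, h2, h3⟩ := hS
  refine ⟨F.comap (MonoidHom.fst S.G T.G), ⟨((g, 1) : S.G × T.G), hg⟩, ?_, ?_⟩
  · intro e he y hy
    have he' : e.1 ∉ F := he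
    rcases h2 e.1 he' y.1 (congrArg Prod.fst hy) with h | h
    · exact Or.inl (Prod.ext h (ht _))
    · exact Or.inr (Prod.ext h ((ht _).trans (ht _).symm))
  · intro f hf hf1 y hy
    have hf' : f.1 ∈ F := hf
    show y.1 ∈ F
    refine h3 f.1 hf' (fun h => hf1 (Prod.ext h (ht _))) y.1 (congrArg Prod.fst hy)

theorem hasF_prod_right {S T : QStruct} (ht : ∀ b : S.G, b = 1) (hS : HasF T) :
    HasF (QS.prod S T) := by
  obtain ⟨F, ⟨g, hg⟩, h2, h3⟩ := hS
  refine ⟨F.comap (MonoidHom.snd S.G T.G), ⟨((1, g) : S.G × T.G), hg⟩, ?_, ?_⟩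
  · intro e he y hy
    have he' : e.2 ∉ F := he
    rcases h2 e.2 he' y.2 (congrArg Prod.snd hy) with h | h
    · exact Or.inl (Prod.ext (ht _) h)
    · exact Or.inr (Prod.ext ((ht _).trans (ht _).symm) h)
  · intro f hf hf1 y hy
    have hf' : f.2 ∈ F := hf
    show y.2 ∈ F
    refine h3 f.2 hf' (fun h => hf1 (Prod.ext (ht _) h)) y.2 (congrArg Prod.snd hy)

/-- all elements are rigid if all are and the subgroup is trivial -/
theorem hasF_bot {S : QStruct} (hg : ∃ g : S.G, g ≠ 1)
    (h : ∀ e : S.G, e ≠ 1 → ∀ y, S.q e y = S.zero → y = 1 ∨ y = e) : HasF S := by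
  obtain ⟨g, hg⟩ := hg
  refine ⟨⊥, ⟨g, fun h => hg (Subgroup.mem_bot.1 h)⟩, ?_, ?_⟩
  · intro e he y hy
    exact h e (fun h' => he (Subgroup.mem_bot.2 h')) y hy
  · intro f hf hf1
    exact absurd (Subgroup.mem_bot.1 hf) hf1

theorem hasF_ext (S : QStruct) (hneg : S.neg = 1) : HasF (QS.ext S) := by
  let K : Subgroup (QS.ext S).G := (⊥ : Subgroup (Multiplicative (ZMod 2))).comap
    (MonoidHom.snd S.G (Multiplicative (ZMod 2)))
  have mK : ∀ u : (QS.ext S).G, u ∈ K ↔ u.2 = 1 := fun u => Iff.rfl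
  refine ⟨K, ⟨((1, Multiplicative.ofAdd 1) : S.G × Multiplicative (ZMod 2)), ?_⟩, ?_, ?_⟩
  · intro h
    have h' : (Multiplicative.ofAdd (1 : ZMod 2)) = 1 := (mK _).1 h
    exact absurd h' (by decide)
  · rintro ⟨a, α⟩ he ⟨b, β⟩ hy
    have he' : α ≠ 1 := fun h => he ((mK _).2 h)
    rcases two_cases α with rfl | rfl
    · exact absurd rfl he'
    have hy' : extMap S (a, Multiplicative.ofAdd 1) (b, β) = (S.zero, 1) :=
      congrArg Subtype.val hy
    rcases two_cases β with rfl | rfl
    · rw [extMap_x_one] at hy'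
      left
      exact Prod.ext (congrArg Prod.snd hy') rfl
    · rw [extMap_x_x, hneg, one_mul] at hy'
      right
      have : a * b = 1 := congrArg Prod.snd hy'
      exact Prod.ext ((eq_iff_mul S a b).2 this).symm rfl
  · rintro ⟨a, α⟩ hf hf1 ⟨b, β⟩ hy
    have hf' : α = 1 := (mK _).1 hf
    subst hf'
    apply (mK _).2
    show β = 1
    have hy' : extMap S (a, 1) (b, β) = (S.zero, 1) := congrArg Subtype.val hy
    rcases two_cases β with rfl | rfl
    · rfl
    · exfalso
      rw [extMap_one_x] at hy'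
      exact hf1 (Prod.ext (congrArg Prod.snd hy') rfl)

theorem card_le_four {G : Type} [Group G] [Finite G] (g a : G)
    (h : ∀ y : G, y = 1 ∨ y = g ∨ y = a ∨ y = g * a) : Nat.card G ≤ 4 := by
  let f : Bool × Bool → G := fun b => (if b.1 then g else 1) * (if b.2 then a else 1)
  have hf : Function.Surjective f := by
    intro y
    rcases h y with rfl | rfl | rfl | rfl
    · exact ⟨(false, false), by simp [f]⟩
    · exact ⟨(true, false), by simp [f]⟩
    · exact ⟨(false, true), by simp [f]⟩
    · exact ⟨(true, true), by simp [f]⟩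
  have h1 := Nat.card_le_card_of_surjective f hf
  have h6 : Nat.card (Bool × Bool) = 4 := by simp
  omega

theorem two_values {S : QStruct} (h2 : Nat.card S.Q = 2) {β γ : S.Q} (hβ : β ≠ S.zero)
    (hγ : γ ≠ S.zero) : β = γ := by
  have hf : Finite S.Q := Nat.finite_of_card_ne_zero (by rw [h2]; norm_num)
  by_contra hne
  have h3 : 3 ≤ Nat.card S.Q := by
    classical
    have := Fintype.ofFinite S.Q
    rw [Nat.card_eq_fintype_card]
    have h4 : ({S.zero, β, γ} : Finset S.Q).card = 3 := by
      rw [Finset.card_insert_of_notMem, Finset.card_insert_of_notMem,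
        Finset.card_singleton]
      · simpa using hne
      · simp only [Finset.mem_insert, Finset.mem_singleton, not_or]
        exact ⟨fun h => hβ h.symm, fun h => hγ h.symm⟩
    rw [← h4]
    exact Finset.card_le_univ _
  omega

theorem elem_hasF {S : QStruct} (h : ElemType S) : S.neg = 1 → HasRig S → HasF S := by
  induction h with
  | L0 S h =>
    rintro - ⟨g, hg, -⟩
    exfalso
    have := (Nat.card_eq_one_iff_unique.1 h).1
    exact hg (Subsingleton.elim _ _)
  | L10 S h h1 h2 =>
    rintro - ⟨g, hg, hr⟩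
    refine hasF_bot ⟨g, hg⟩ ?_
    intro e he y _
    have h3 : ∀ y : S.G, y = 1 ∨ y = g := fun y => hr y (h2 g y)
    have h4 : e = g := (h3 e).resolve_left he
    rw [h4]
    exact h3 y
  | L11 S h h1 h2 => exact fun h => absurd h h1
  | L1 S h h1 h2 => exact fun h => absurd h h1
  | loc S hf h h1 h2 =>
    rintro - ⟨g, hg, hr⟩
    exfalso
    -- at most four elements
    by_cases h3 : ∃ a, a ≠ 1 ∧ a ≠ g
    · obtain ⟨a, ha1, hag⟩ := h3
      have h4 : S.q g a ≠ S.zero := fun h => by
        rcases hr a h with h | h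
        · exact ha1 h
        · exact hag h
      have := card_le_four g a (fun y => by
        by_cases hy : S.q g y = S.zero
        · rcases hr y hy with h | h
          · exact Or.inl h
          · exact Or.inr (Or.inl h)
        · have h5 := two_values h2 hy h4
          rcases hr (y * a) ((S.qs3 g y a).1 h5) with h | h
          · right; right; left
            exact (eq_iff_mul S y a).2 h
          · right; right; right
            rw [← h, mul_assoc, S.exp_two, mul_one])
      omega
    · push Not at h3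
      have := card_le_four g 1 (fun y => by
        by_cases hy : y = 1
        · exact Or.inl hy
        · exact Or.inr (Or.inl (h3 y hy)))
      omega
  | prod S T _ _ ihS ihT =>
    rintro hneg ⟨g, hg, hr⟩
    have h1 : S.neg = 1 := congrArg Prod.fst hneg
    have h2 : T.neg = 1 := congrArg Prod.snd hneg
    by_cases h3 : g.1 = 1
    · -- the second component is not trivial
      have hg2 : g.2 ≠ 1 := fun h => hg (Prod.ext h3 h)
      have hS : ∀ a : S.G, a = 1 := by
        intro a
        rcases hr ((a, 1) : S.G × T.G) (Prod.ext (by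
          show S.q g.1 a = S.zero
          rw [h3, S.qs2, S.q_one]) (T.q_one _)) with h | h
        · exact congrArg Prod.fst h
        · exact absurd (congrArg Prod.snd h).symm hg2
      refine hasF_prod_right hS (ihT h2 ⟨g.2, hg2, fun y hy => ?_⟩)
      rcases hr ((1, y) : S.G × T.G) (Prod.ext (S.q_one _) hy) with h | h
      · exact Or.inl (congrArg Prod.snd h)
      · exact Or.inr (congrArg Prod.snd h)
    · have hg2 : g.2 = 1 := by
        rcases hr ((g.1, 1) : S.G × T.G) (Prod.ext (by
          show S.q g.1 g.1 = S.zero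
          have := S.qs1 g.1
          rwa [h1, one_mul] at this) (T.q_one _)) with h | h
        · exact absurd (congrArg Prod.fst h) h3
        · exact (congrArg Prod.snd h).symm
      have hT : ∀ b : T.G, b = 1 := by
        intro b
        rcases hr ((1, b) : S.G × T.G) (Prod.ext (S.q_one _) (by
          show T.q g.2 b = T.zero
          rw [hg2, T.qs2, T.q_one])) with h | h
        · exact congrArg Prod.snd h
        · exact absurd (congrArg Prod.fst h).symm h3
      refine hasF_prod_left hT (ihS h1 ⟨g.1, h3, fun y hy => ?_⟩)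
      rcases hr ((y, 1) : S.G × T.G) (Prod.ext hy (T.q_one _)) with h | h
      · exact Or.inl (congrArg Prod.fst h)
      · exact Or.inr (congrArg Prod.fst h)
  | ext S _ ih => exact fun hneg _ => hasF_ext S (congrArg Prod.fst hneg)
  | iso S T h1 _ ih =>
    intro hneg hr
    have hr' := hasRig_iso h1 hr
    obtain ⟨e, he, he'⟩ := h1
    refine hasF_iso ⟨e, he, he'⟩ (ih ?_ hr')
    exact e.injective (by rw [he, hneg, map_one])

/-- elements outside `F` are rigid, commutants of nonzero elements of `F` are inside `F` -/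
structure PF {V : Type} [AddCommGroup V] [Module (ZMod 2) V] (Z : V → V → Prop)
    (F : Submodule (ZMod 2) V) : Prop where
  ne : ∃ v, v ∉ F
  out : ∀ e, e ∉ F → ∀ y, Z e y → y = 0 ∨ y = e
  inn : ∀ f ∈ F, f ≠ 0 → ∀ y, Z f y → y ∈ F

theorem pf_of_rig {V : Type} [AddCommGroup V] [Module (ZMod 2) V] {Z : V → V → Prop}
    (hZ : LZ Z) (hE : ETZ Z) {g : V} (hg : g ≠ 0) (hr : ∀ y, Z g y → y = 0 ∨ y = g) :
    ∃ F, PF Z F := by
  obtain ⟨S, hQ⟩ := qex_proof V Z hZ
  have hS := hE S hQ
  obtain ⟨hneg, e, he⟩ := hQ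
  have h1 : ∀ v : V, e (Multiplicative.ofAdd v) = 1 ↔ v = 0 := by
    intro v
    constructor
    · intro h
      have h1 : Multiplicative.ofAdd v = 1 := e.injective (by rw [h, map_one])
      exact h1
    · rintro rfl
      exact map_one e
  have h2 : ∀ v w : V, e (Multiplicative.ofAdd v) = e (Multiplicative.ofAdd w) ↔ v = w := by
    intro v w
    constructor
    · intro h
      exact Multiplicative.ofAdd.injective (e.injective h)
    · rintro rfl
      rfl
  have hrig : HasRig S := by
    refine ⟨e (Multiplicative.ofAdd g), fun h => hg ((h1 g).1 h), fun y hy => ?_⟩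
    obtain ⟨y, rfl⟩ := e.surjective y
    obtain ⟨y, rfl⟩ := Multiplicative.ofAdd.surjective y
    rw [h1, h2]
    exact hr y ((he g y).1 hy)
  obtain ⟨K, ⟨w, hw⟩, k2, k3⟩ := elem_hasF hS hneg hrig
  let F : Submodule (ZMod 2) V :=
    { carrier := {v | e (Multiplicative.ofAdd v) ∈ K}
      add_mem' := by
        intro a b ha hb
        have ha' : e (Multiplicative.ofAdd a) ∈ K := ha
        have hb' : e (Multiplicative.ofAdd b) ∈ K := hb
        show e (Multiplicative.ofAdd (a + b)) ∈ K
        rw [ofAdd_add, map_mul]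
        exact K.mul_mem ha' hb'
      zero_mem' := by
        show e (Multiplicative.ofAdd (0 : V)) ∈ K
        rw [ofAdd_zero, map_one]
        exact K.one_mem
      smul_mem' := by
        intro a v hv
        rcases zz a with rfl | rfl
        · rw [zero_smul]
          show e (Multiplicative.ofAdd (0 : V)) ∈ K
          rw [ofAdd_zero, map_one]
          exact K.one_mem
        · rw [one_smul]; exact hv }
  have mF : ∀ v, v ∈ F ↔ e (Multiplicative.ofAdd v) ∈ K := fun v => Iff.rfl
  refine ⟨F, ?_, ?_, ?_⟩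
  · obtain ⟨w, rfl⟩ := e.surjective w
    obtain ⟨w, rfl⟩ := Multiplicative.ofAdd.surjective w
    exact ⟨w, hw⟩
  · intro v hv y hy
    rcases k2 _ (fun h => hv ((mF v).2 h)) _ ((he v y).2 hy) with h | h
    · exact Or.inl ((h1 y).1 h)
    · exact Or.inr ((h2 y v).1 h)
  · intro f hf hf0 y hy
    rw [mF] at hf ⊢
    exact k3 _ hf (fun h => hf0 ((h1 f).1 h)) _ ((he f y).2 hy)

/-- a minimal `F` contains no rigid elements -/
theorem pf_min {V : Type} [AddCommGroup V] [Module (ZMod 2) V] [Finite V] {Z : V → V → Prop}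
    (hZ : LZ Z)
    (hsm : ∀ F : Submodule (ZMod 2) V, LZ (fun a b : F => Z (a : V) (b : V)) →
      ETZ (fun a b : F => Z (a : V) (b : V)))
    (h : ∃ F, PF Z F) :
    ∃ F, PF Z F ∧ ∀ f ∈ F, f ≠ 0 → ∃ d, Z f d ∧ d ≠ 0 ∧ d ≠ f := by
  classical
  obtain ⟨F, hF, hmin⟩ : ∃ F, PF Z F ∧ ∀ F' : Submodule (ZMod 2) V, PF Z F' →
      Module.finrank (ZMod 2) (F : Submodule (ZMod 2) V) ≤ Module.finrank (ZMod 2) F' := by
    have hfin : {F : Submodule (ZMod 2) V | PF Z F}.Finite := Set.toFinite _
    obtain ⟨F, h1, h2⟩ := hfin.exists_minimalFor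
      (fun F : Submodule (ZMod 2) V => Module.finrank (ZMod 2) F) _ h
    refine ⟨F, h1, fun F' hF' => ?_⟩
    by_contra hc
    push Not at hc
    exact absurd (h2 hF' hc.le) (not_le.2 hc)
  refine ⟨F, hF, fun f hf hf0 => ?_⟩
  by_contra hcon
  push Not at hcon
  -- `F` is linked
  have hL : LZ (fun a b : F => Z (a : V) (b : V)) := by
    apply LZ_sub hZ
    rintro a b c d ⟨x, e1, e2, e3⟩
    by_cases ha : (a : V) = 0
    · by_cases hc : (c : V) = 0
      · refine ⟨0, ?_, ?_, hZ.zero _⟩
        · rw [ha]; exact hZ.symm _ _ (hZ.zero _)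
        · rw [hc]; exact hZ.symm _ _ (hZ.zero _)
      · have h1 := hF.inn c c.2 hc _ e2
        have h2 : x ∈ F := by
          have := F.add_mem d.2 h1
          rwa [← add_assoc, ZModModule.add_self, zero_add] at this
        exact ⟨⟨x, h2⟩, e1, e2, e3⟩
    · have h1 := hF.inn a a.2 ha _ e1
      have h2 : x ∈ F := by
        have := F.add_mem b.2 h1
        rwa [← add_assoc, ZModModule.add_self, zero_add] at this
      exact ⟨⟨x, h2⟩, e1, e2, e3⟩
  obtain ⟨F1, hF1⟩ := pf_of_rig hL (hsm F hL) (g := ⟨f, hf⟩) (fun h => hf0 (congrArg Subtype.val h))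
    (fun y hy => by
      by_cases hy0 : (y : V) = 0
      · exact Or.inl (Subtype.ext hy0)
      · exact Or.inr (Subtype.ext (hcon y hy hy0)))
  -- the image in `V`
  have hP : PF Z (F1.map F.subtype) := by
    have mem : ∀ y : F, (y : V) ∈ F1.map F.subtype ↔ y ∈ F1 := by
      intro y
      constructor
      · rintro ⟨z, hz, hzy⟩
        have : z = y := Subtype.ext hzy
        rwa [← this]
      · intro hy
        exact ⟨y, hy, rfl⟩
    refine ⟨?_, ?_, ?_⟩
    · obtain ⟨v, hv⟩ := hF1.ne
      exact ⟨v, fun h => hv ((mem v).1 h)⟩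
    · intro e he y hy
      by_cases heF : e ∈ F
      · by_cases he0 : e = 0
        · exact absurd (by rw [he0]; exact Submodule.zero_mem _) he
        have hyF : y ∈ F := hF.inn e heF he0 y hy
        rcases hF1.out ⟨e, heF⟩ (fun h => he ((mem ⟨e, heF⟩).2 h)) ⟨y, hyF⟩ hy with h | h
        · exact Or.inl (congrArg Subtype.val h)
        · exact Or.inr (congrArg Subtype.val h)
      · exact hF.out e heF y hy
    · rintro f' ⟨f, hf, rfl⟩ hf0 y hy
      have hyF : y ∈ F := hF.inn f f.2 hf0 y hy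
      exact (mem ⟨y, hyF⟩).2 (hF1.inn f hf (fun h => hf0 (congrArg Subtype.val h)) ⟨y, hyF⟩ hy)
  have h1 := hmin _ hP
  have h2 : Module.finrank (ZMod 2) (F1.map F.subtype) = Module.finrank (ZMod 2) F1 :=
    Submodule.finrank_map_subtype_eq _ _
  obtain ⟨v, hv⟩ := hF1.ne
  have h3 : Module.finrank (ZMod 2) F1 < Module.finrank (ZMod 2) F :=
    Submodule.finrank_lt (fun h => hv (by rw [h]; trivial))
  omega

end Pool.Agent.ETCT
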