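import Pool.Agent.ETCISO.R2b
import Pool.Agent.ETCISO.Prime

/-!
# (K4), first part: a rigid class of the Pfister quotient gives a prime functional (note 1840(B))
-/

set_option autoImplicit false
set_option linter.unusedSimpArgs false
set_option linter.unusedVariables false
set_option linter.unusedSectionVars false

namespace Pool.Agent.ETCT

open Pool.Agent.Helper58.PLine (QData exists_functional add_self_add)
open Pool.Agent.ETCP Pool.Agent.ETCISO

variable {V Q : Type} [AddCommGroup V] [Module (ZMod 2) V]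

/-- `F` is a proper subspace containing `V_x`; elements outside `F` have rigid classes in the
Pfister quotient of `x`, and nonzero classes in `F` are not rigid and have commutant inside `F` -/
structure RF (S : QData V Q) (x : V) (F : Submodule (ZMod 2) V) : Prop where
  le : ∀ y, C S x y → y ∈ F
  out : ∀ u, u ∉ F → ∀ y, C S u y → C S x y ∨ C S x (y + u)
  inn : ∀ f ∈ F, ¬ C S x f → ∀ y, C S f y → y ∈ F
  nor : ∀ f ∈ F, ¬ C S x f → ∃ f' d, C S x (f + f') ∧ C S f' d ∧ ¬ C S x d ∧ ¬ C S x (d + f)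
  ne : F ≠ ⊤

variable {S : QData V Q} {x : V} {F : Submodule (ZMod 2) V}

/-- a functional vanishing on `F` and one vanishing on `V_x` give a form of rank two -/
theorem rk2_of_RF (he : S.e = 0) (R : RF S x F) (f1 f2 : V →ₗ[ZMod 2] ZMod 2)
    (h1 : ∀ y ∈ F, f1 y = 0) (h2 : ∀ y, C S x y → f2 y = 0)
    (ha : ∃ a, f1 a = 1 ∧ f2 a = 0) (hb : ∃ b, f2 b = 1) : Rk2 S (f1.prod f2) := by
  refine ⟨he, ?_, ?_⟩
  · obtain ⟨a, ha1, ha2⟩ := ha
    obtain ⟨b, hb2⟩ := hb
    have hb' : ∃ b, f1 b = 0 ∧ f2 b = 1 := by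
      rcases (zv (a := f1 b)) with h | h
      · exact ⟨b, h, hb2⟩
      · refine ⟨a + b, ?_, ?_⟩
        · rw [map_add, ha1, h]; decide
        · rw [map_add, ha2, hb2]; decide
    obtain ⟨b', hb1', hb2'⟩ := hb'
    rintro ⟨i, j⟩
    refine ⟨i • a + j • b', ?_⟩
    show (f1 (i • a + j • b'), f2 (i • a + j • b')) = (i, j)
    rw [map_add, map_add, map_smul, map_smul, map_smul, map_smul, ha1, ha2, hb1', hb2']
    simp
  · have key : ∀ a b, C S a b → a ∉ F → dl ((f1.prod f2) a) ((f1.prod f2) b) = 0 := by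
      intro a b hab haF
      rcases R.out a haF b hab with h | h
      · have : (f1.prod f2) b = 0 := by
          show (f1 b, f2 b) = 0
          rw [h1 b (R.le b h), h2 b h]; rfl
        rw [this, dl_comm, dl_zero]
      · have e1 := h1 _ (R.le _ h)
        have e2 := h2 _ h
        rw [map_add] at e1 e2
        have : (f1.prod f2) b = (f1.prod f2) a := by
          show (f1 b, f2 b) = (f1 a, f2 a)
          rw [eo (V := ZMod 2) e1, eo (V := ZMod 2) e2]
        rw [this, dl_self]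
    intro a b hab
    by_cases haF : a ∈ F
    · by_cases hbF : b ∈ F
      · show f1 a * f2 b + f2 a * f1 b = 0
        rw [h1 a haF, h1 b hbF]; ring
      · rw [dl_comm]
        exact key b a hab.symm hbF
    · exact key a b hab haF

/-- **(1)** `V_z < F` or `F < V_z + V_x` -/
theorem RF.dich [Finite V] (he : S.e = 0) (R : RF S x F) {z : V} (hz : C S x z) :
    S.ann z ≤ F ∨ F ≤ Nz S x z := by
  by_contra hc
  push Not at hc
  obtain ⟨h1, h2⟩ := hc
  obtain ⟨a, ha, haF⟩ := Set.not_subset.1 h1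
  obtain ⟨b, hbF, hb⟩ := Set.not_subset.1 h2
  obtain ⟨f1, f1a, f10⟩ := exists_functional (p := F) haF
  obtain ⟨f2, f2b, f20⟩ := exists_functional (p := Nz S x z) hb
  have hx2 : ∀ y, C S x y → f2 y = 0 := fun y hy => f20 y (annx_le_Nz z hy)
  have f2a : f2 a = 0 := f20 a (ann_le_Nz z ha)
  have f1b : f1 b = 0 := f10 b hbF
  have X := rk2_of_RF he R f1 f2 f10 hx2 ⟨a, f1a, f2a⟩ ⟨b, f2b⟩
  have t1 : Ti S (f1.prod f2) ((1, 0) : E) z := by
    refine ⟨⟨?_, a, ?_, ha⟩, ?_⟩
    · show (f1 z, f2 z) = 0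
      rw [f10 z (R.le z hz), hx2 z hz]; rfl
    · show (f1 a, f2 a) = (1, 0)
      rw [f1a, f2a]
    · rintro j hj0 hj1 ⟨-, w, hw, hcw⟩
      have e2 : f2 w = 0 := f20 w (ann_le_Nz z hcw)
      have e3 : (f1 w, f2 w) = j := hw
      rw [e2] at e3
      rcases (zv (a := f1 w)) with h | h
      · rw [h] at e3; exact hj0 e3.symm
      · rw [h] at e3; exact hj1 e3.symm
  have hxb : ¬ C S x b := fun h => hb (annx_le_Nz z h)
  obtain ⟨f', d, k1, k2, k3, k4⟩ := R.nor b hbF hxb
  have hf'F : f' ∈ F := by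
    have := F.add_mem hbF (R.le _ k1)
    rwa [show b + (b + f') = f' by
      exact eo (by abel_nf; simp [ch2, ch3, ch4])] at this
  have hf'x : ¬ C S x f' := by
    intro h
    exact hxb ((k1.add h).of_eq rfl (add_self_add b f'))
  have hf'2 : f2 f' = 1 := by
    have := hx2 _ k1
    rw [map_add, f2b] at this
    exact (eo (V := ZMod 2) this).symm
  have hf'1 : f1 f' = 0 := f10 _ hf'F
  -- an element of the third type
  have fin : ∀ d', C S f' d' → f2 d' = 0 → ¬ C S x d' → False := by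
    intro d' g1 g2 g3
    have hd'F : d' ∈ F := R.inn f' hf'F hf'x d' g1
    have t2 : Ti S (f1.prod f2) ((0, 1) : E) d' := by
      refine ⟨⟨?_, f', ?_, g1.symm⟩, ?_⟩
      · show (f1 d', f2 d') = 0
        rw [f10 _ hd'F, g2]; rfl
      · show (f1 f', f2 f') = (0, 1)
        rw [hf'1, hf'2]
      · rintro j hj0 hj1 ⟨-, w, hw, hcw⟩
        have e2 : f1 w = 0 := f10 w (R.inn d' hd'F g3 w hcw)
        have e3 : (f1 w, f2 w) = j := hw
        rw [e2] at e3
        rcases (zv (a := f2 w)) with h | h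
        · rw [h] at e3; exact hj0 e3.symm
        · rw [h] at e3; exact hj1 e3.symm
    exact X.R2 (i := (1, 0)) (j := (0, 1)) (by decide) (by decide) (by decide) t1 t2
  rcases (zv (a := f2 d)) with h | h
  · exact fin d k2 h k3
  · refine fin (d + f') (k2.add (C.self he f')) ?_ ?_
    · rw [map_add, h, hf'2]; decide
    · intro h'
      apply k4
      exact (h'.add k1).of_eq rfl (eo (by abel_nf; simp [ch2, ch3, ch4]))

/-- `V_z + F` -/
def Gz (S : QData V Q) (F : Submodule (ZMod 2) V) (z : V) : Submodule (ZMod 2) V := S.ann z ⊔ F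

theorem ann_le_Gz (z : V) : S.ann z ≤ Gz S F z := le_sup_left

theorem F_le_Gz (z : V) : F ≤ Gz S F z := le_sup_right

theorem exists_of_not_leG {z z' : V} (h : ¬ Gz S F z ≤ Gz S F z') :
    ∃ a, C S z a ∧ a ∉ Gz S F z' := by
  by_contra hc
  push Not at hc
  exact h (sup_le (fun a ha => hc a ha) (F_le_Gz z'))

/-- **(2)** the chain property -/
theorem RF.chain [Finite V] (he : S.e = 0) (R : RF S x F) {z z' : V} (hz : C S x z)
    (hz' : C S x z') : Gz S F z ≤ Gz S F z' ∨ Gz S F z' ≤ Gz S F z := by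
  by_contra hc
  push Not at hc
  obtain ⟨a, ha, ha'⟩ := exists_of_not_leG hc.1
  obtain ⟨b, hb, hb'⟩ := exists_of_not_leG hc.2
  obtain ⟨f1, f1a, f10⟩ := exists_functional ha'
  obtain ⟨f2, f2b, f20⟩ := exists_functional hb'
  have hF1 : ∀ y ∈ F, f1 y = 0 := fun y hy => f10 y (F_le_Gz z' hy)
  have hx1 : ∀ y, C S x y → f1 y = 0 := fun y hy => hF1 y (R.le y hy)
  have hx2 : ∀ y, C S x y → f2 y = 0 := fun y hy => f20 y (F_le_Gz z (R.le y hy))
  have f2a : f2 a = 0 := f20 a (ann_le_Gz z ha)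
  have f1b : f1 b = 0 := f10 b (ann_le_Gz z' hb)
  have X := rk2_of_RF he R f1 f2 hF1 hx2 ⟨a, f1a, f2a⟩ ⟨b, f2b⟩
  have t1 : Ti S (f1.prod f2) ((1, 0) : E) z := by
    refine ⟨⟨?_, a, ?_, ha⟩, ?_⟩
    · show (f1 z, f2 z) = 0
      rw [hx1 z hz, hx2 z hz]; rfl
    · show (f1 a, f2 a) = (1, 0)
      rw [f1a, f2a]
    · rintro j hj0 hj1 ⟨-, w, hw, hcw⟩
      have e2 : f2 w = 0 := f20 w (ann_le_Gz z hcw)
      have e3 : (f1 w, f2 w) = j := hw
      rw [e2] at e3
      rcases (zv (a := f1 w)) with h | h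
      · rw [h] at e3; exact hj0 e3.symm
      · rw [h] at e3; exact hj1 e3.symm
  have t2 : Ti S (f1.prod f2) ((0, 1) : E) z' := by
    refine ⟨⟨?_, b, ?_, hb⟩, ?_⟩
    · show (f1 z', f2 z') = 0
      rw [hx1 z' hz', hx2 z' hz']; rfl
    · show (f1 b, f2 b) = (0, 1)
      rw [f1b, f2b]
    · rintro j hj0 hj1 ⟨-, w, hw, hcw⟩
      have e2 : f1 w = 0 := f10 w (ann_le_Gz z' hcw)
      have e3 : (f1 w, f2 w) = j := hw
      rw [e2] at e3
      rcases (zv (a := f2 w)) with h | h
      · rw [h] at e3; exact hj0 e3.symm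
      · rw [h] at e3; exact hj1 e3.symm
  exact X.R2 (i := (1, 0)) (j := (0, 1)) (by decide) (by decide) (by decide) t1 t2

/-- if `V_t + V_x = V` then `V_(x+t)` is contained in `V_x`. -/
theorem RF.hadd (he : S.e = 0) (R : RF S x F)
    (hr : ∃ a b, ¬ C S x a ∧ ¬ C S x b ∧ ¬ C S x (a + b)) {t : V} (ht : C S x t)
    (hN : Nz S x t = ⊤) {w : V} (hw : C S (x + t) w) : C S x w := by
  by_contra hc
  have hxx : C S x x := C.self he x
  -- two functionals which do not both vanish at `w`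
  obtain ⟨f1, f2, h1, h2, ha, hb, hne⟩ : ∃ f1 f2 : V →ₗ[ZMod 2] ZMod 2, (∀ y ∈ F, f1 y = 0) ∧
      (∀ y, C S x y → f2 y = 0) ∧ (∃ a, f1 a = 1 ∧ f2 a = 0) ∧ (∃ b, f2 b = 1) ∧
      (f1 w = 1 ∨ f2 w = 1) := by
    by_cases hwF : w ∈ F
    · obtain ⟨v1, hv1⟩ : ∃ v, v ∉ F := by
        by_contra hcon
        push Not at hcon
        exact R.ne (eq_top_iff.2 fun v _ => hcon v)
      obtain ⟨f1, f1v, f10⟩ := exists_functional (p := F) hv1
      obtain ⟨f2, f2w, f20⟩ := exists_functional (p := S.ann x) hc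
      refine ⟨f1, f2, f10, fun y hy => f20 y hy, ?_, ⟨w, f2w⟩, Or.inr f2w⟩
      rcases (zv (a := f2 v1)) with h | h
      · exact ⟨v1, f1v, h⟩
      · refine ⟨v1 + w, ?_, ?_⟩
        · rw [map_add, f1v, f10 w hwF, add_zero]
        · rw [map_add, h, f2w]; decide
    · obtain ⟨b, hb⟩ : ∃ b, b ∉ S.ann x ⊔ Submodule.span (ZMod 2) {w} := by
        by_contra hb
        push Not at hb
        obtain ⟨a, b, h1, h2, h3⟩ := hr
        have key : ∀ y, ¬ C S x y → C S x (y + w) := by
          intro y hy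
          obtain ⟨u, hu, v, hv, huv⟩ := Submodule.mem_sup.1 (hb y)
          obtain ⟨k, rfl⟩ := Submodule.mem_span_singleton.1 hv
          rcases (zv (a := k)) with rfl | rfl
          · rw [zero_smul, add_zero] at huv
            rw [← huv] at hy
            exact absurd hu hy
          · rw [one_smul] at huv
            rw [← huv, add_self_add]
            exact hu
        apply h3
        exact ((key a h1).add (key b h2)).of_eq rfl (eo (by abel_nf; simp [ch2, ch3, ch4]))
      obtain ⟨f2, f2b, f20⟩ := exists_functional hb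
      obtain ⟨f1, f1w, f10⟩ := exists_functional (p := F) hwF
      refine ⟨f1, f2, f10, fun y hy => f20 y (Submodule.mem_sup_left hy), ?_, ⟨b, f2b⟩,
        Or.inl f1w⟩
      exact ⟨w, f1w, f20 w (Submodule.mem_sup_right (Submodule.mem_span_singleton_self w))⟩
  have X := rk2_of_RF he R f1 f2 h1 h2 ha hb
  have h0 : ∀ w, C S x w → (f1.prod f2) w = 0 := by
    intro w hw
    show (f1 w, f2 w) = 0
    rw [h1 w (R.le w hw), h2 w hw]; rfl
  have hT : t ∈ X.T := by
    intro i
    obtain ⟨v, hv⟩ := X.sur i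
    have hvN : v ∈ Nz S x t := by rw [hN]; trivial
    obtain ⟨v1, hv1, v2, hv2, rfl⟩ := Submodule.mem_sup.1 hvN
    refine ⟨h0 t ht, v1, ?_, hv1⟩
    have : (f1.prod f2) v2 = 0 := h0 v2 hv2
    rw [map_add, this, add_zero] at hv
    exact hv
  have h3 : (f1 w, f2 w) = (0 : E) := X.T0_add (h0 x hxx) h0 hT w hw
  rcases hne with h | h
  · have h4 : f1 w = 0 := congrArg Prod.fst h3
    rw [h] at h4
    exact absurd h4 (by decide)
  · have h4 : f2 w = 0 := congrArg Prod.snd h3
    rw [h] at h4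
    exact absurd h4 (by decide)

/-- **a rigid class of the Pfister quotient gives a prime functional** -/
theorem RF.prime [Finite V] (he : S.e = 0) (R : RF S x F)
    (hr : ∃ a b, ¬ C S x a ∧ ¬ C S x b ∧ ¬ C S x (a + b)) :
    ∃ φ : V →ₗ[ZMod 2] ZMod 2, φ ≠ 0 ∧
      ∀ p p', (∃ v, C S p v ∧ φ v = 1) → (∃ v, C S p' v ∧ φ v = 1) →
        (∃ v, C S (p + p') v ∧ φ v = 1) → ∃ v, C S p v ∧ C S p' v ∧ φ v = 1 := by
  classical
  have hxx : C S x x := C.self he x
  -- the largest proper `G_z`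
  obtain ⟨z0, ⟨hz0, hz0top⟩, hmax⟩ : ∃ z0, (C S x z0 ∧ Gz S F z0 ≠ ⊤) ∧
      ∀ z, C S x z ∧ Gz S F z ≠ ⊤ →
        Module.finrank (ZMod 2) (Gz S F z) ≤ Module.finrank (ZMod 2) (Gz S F z0) := by
    have hfin : {z : V | C S x z ∧ Gz S F z ≠ ⊤}.Finite := Set.toFinite _
    have hne : {z : V | C S x z ∧ Gz S F z ≠ ⊤}.Nonempty := by
      refine ⟨x, hxx, ?_⟩
      intro h
      apply R.ne
      rw [← h]
      unfold Gz
      exact (sup_eq_right.2 fun y hy => R.le y hy).symm
    obtain ⟨z0, h1, h2⟩ := hfin.exists_maximalFor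
      (fun z => Module.finrank (ZMod 2) (Gz S F z)) _ hne
    refine ⟨z0, h1, fun z hz => ?_⟩
    by_contra hc
    push Not at hc
    exact absurd (h2 hz hc.le) (not_le.2 hc)
  have hprop : ∀ z, C S x z → Gz S F z ≠ ⊤ → Gz S F z ≤ Gz S F z0 := by
    intro z hz hzt
    rcases R.chain he hz hz0 with h | h
    · exact h
    · exact (Submodule.eq_of_le_of_finrank_le h (hmax z ⟨hz, hzt⟩)).ge
  obtain ⟨v0, hv0⟩ : ∃ v, v ∉ Gz S F z0 := by
    by_contra hc
    push Not at hc
    exact hz0top (eq_top_iff.2 fun v _ => hc v)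
  obtain ⟨φ, hφ1, hφ0⟩ := exists_functional hv0
  have hφF : ∀ y ∈ F, φ y = 0 := fun y hy => hφ0 y (F_le_Gz z0 hy)
  have hφx : ∀ y, C S x y → φ y = 0 := fun y hy => hφF y (R.le y hy)
  have hfull : ∀ t, C S x t → (∃ v, C S t v ∧ φ v = 1) → Nz S x t = ⊤ := by
    rintro t ht ⟨v, hv, hv1⟩
    rcases R.dich he ht with h | h
    · have := hφF v (h hv)
      rw [hv1] at this
      exact absurd this (by decide)
    · have hG : Gz S F t = Nz S x t :=
        le_antisymm (sup_le (ann_le_Nz t) h)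
          (sup_le (ann_le_Gz t) (fun y hy => F_le_Gz t (R.le y hy)))
      rw [← hG]
      by_contra hc
      have := hφ0 v (hprop t ht hc (ann_le_Gz t hv))
      rw [hv1] at this
      exact absurd this (by decide)
  -- values outside `V_x`
  have hout : ∀ p, ¬ C S x p → (∃ v, C S p v ∧ φ v = 1) → φ p = 1 := by
    rintro p hp ⟨v, hv, hv1⟩
    by_cases hpF : p ∈ F
    · have := hφF v (R.inn p hpF hp v hv)
      rw [this] at hv1
      exact absurd hv1 (by decide)
    rcases R.out p hpF v hv with h | h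
    · rw [hφx v h] at hv1; exact absurd hv1 (by decide)
    · have := hφx _ h
      rw [map_add, hv1] at this
      rw [← eo (V := ZMod 2) this]
  have hrig : ∀ u, φ u = 1 → ∀ y, C S u y → C S x y ∨ C S x (y + u) := by
    intro u hu y hy
    refine R.out u (fun h => ?_) y hy
    rw [hφF u h] at hu
    exact absurd hu (by decide)
  -- a value of `x` is a value of `x + t`
  have hval : ∀ t b, C S x t → Nz S x t = ⊤ → ∃ u, C S t u ∧ S.q x u = S.q x b ∧
      S.q (x + t) u = S.q x b := by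
    intro t b ht hN
    have hb : b ∈ Nz S x t := by rw [hN]; trivial
    obtain ⟨u, hu, u2, hu2, rfl⟩ := Submodule.mem_sup.1 hb
    have e1 : S.q x u = S.q x (u + u2) :=
      q_eq (C.of_eq (S := S) (x := x) (y := u2) hu2 rfl (eo (by abel_nf; simp [ch2, ch3, ch4])))
    refine ⟨u, hu, e1, ?_⟩
    rw [← e1]
    exact q_eq' (C.of_eq (S := S) (x := t) (y := u) hu (eo (by abel_nf; simp [ch2, ch3, ch4])) rfl)
  -- the mixed case
  have hmix : ∀ t u, C S x t → ¬ C S x u → (∃ v, C S t v ∧ φ v = 1) → φ u = 1 →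
      ∃ v, C S t v ∧ C S u v ∧ φ v = 1 := by
    intro t u ht hu htv hu1
    have hN := hfull t ht htv
    obtain ⟨u1, k1, k2, k3⟩ := hval t u ht hN
    have e0 : S.q u x = S.q x u := S.symm _ _
    obtain ⟨s, g1, g2⟩ := S.link _ _ _ _ (k3.trans e0.symm)
    have g1' : S.q (x + t) s = S.q x u := g1.symm.trans k3
    have g2' : C S u (s + x) := q_eq_iff.1 g2.symm
    rcases hrig u hu1 _ g2' with h | h
    · -- impossible
      exfalso
      have hxs : C S x s := (h.add hxx).of_eq rfl (add_self_add s x)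
      have e1 : S.q (x + t) s = S.q t s :=
        q_eq' (hxs.of_eq (eo (by abel_nf; simp [ch2, ch3, ch4])) rfl)
      obtain ⟨y, m1, m2, m3⟩ := link (g1'.symm.trans e1)
      have hxy : C S x y := R.hadd he hr ht hN m3
      exact hu ((m1.add hxy).of_eq rfl (add_self_add u y))
    · have hs : φ (s + x) = 1 := by
        have := hφx _ h
        rw [map_add, hu1] at this
        exact eo (V := ZMod 2) this
      refine ⟨s + x, ?_, g2', hs⟩
      have e1 : C S x (u + s) :=
        (h.add hxx).of_eq rfl (eo (by abel_nf; simp [ch2, ch3, ch4]))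
      have e2 : S.q x u = S.q x s := q_eq e1
      have e3 : C S t s :=
        (q_eq'_iff.1 (g1'.trans e2)).of_eq (eo (by abel_nf; simp [ch2, ch3, ch4])) rfl
      exact e3.add ht.symm
  refine ⟨φ, ?_, ?_⟩
  · intro h
    rw [h, LinearMap.zero_apply] at hφ1
    exact absurd hφ1 (by decide)
  intro p p' hp hp' hpp
  by_cases h1 : C S x p
  · by_cases h2 : C S x p'
    · -- everything inside `V_x`
      have N1 := hfull p h1 hp
      have N2 := hfull p' h2 hp'
      obtain ⟨u, a1, a2, a3⟩ := hval p v0 h1 N1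
      obtain ⟨u', b1, b2, b3⟩ := hval p' v0 h2 N2
      obtain ⟨y, g1, g2⟩ := S.link _ _ _ _ (a3.trans b3.symm)
      have c1 : C S (x + p) (u + y) := q_eq_iff.1 g1
      have c2 : C S x (u + y) := R.hadd he hr h1 N1 c1
      have c3 : S.q x y = S.q x v0 := (q_eq_iff.2 c2).symm.trans a2
      have c4 : C S x (y + v0) := q_eq_iff.1 c3
      have c5 : φ y = 1 := by
        have := hφx _ c4
        rw [map_add, hφ1] at this
        exact eo (V := ZMod 2) this
      have c6 : C S p y :=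
        (q_eq'_iff.1 ((g1.symm.trans a3).trans c3.symm)).of_eq
          (eo (by abel_nf; simp [ch2, ch3, ch4])) rfl
      have c7 : C S p' y :=
        (q_eq'_iff.1 ((g2.symm.trans b3).trans c3.symm)).of_eq
          (eo (by abel_nf; simp [ch2, ch3, ch4])) rfl
      exact ⟨y, c6, c7, c5⟩
    · exact hmix p p' h1 h2 hp (hout p' h2 hp')
  · by_cases h2 : C S x p'
    · obtain ⟨v, a, b, c⟩ := hmix p' p h2 h1 hp' (hout p h1 hp)
      exact ⟨v, b, a, c⟩
    · by_cases h3 : C S x (p + p')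
      · obtain ⟨v, a, b, c⟩ := hmix (p + p') p h3 h1 hpp (hout p h1 hp)
        refine ⟨v, b, ?_, c⟩
        exact (a.add' b).of_eq (eo (by abel_nf; simp [ch2, ch3, ch4])) rfl
      · exfalso
        have e1 := hout p h1 hp
        have e2 := hout p' h2 hp'
        have e3 := hout _ h3 hpp
        rw [map_add, e1, e2] at e3
        exact absurd e3 (by decide)

end Pool.Agent.ETCT
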