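import Pool.Agent.ETC.Witt4
import Pool.Agent.ETCT.K4P
import Pool.Agent.ETCT.K4E

/-!
# (K4) of note 1840(B): the Pfister quotients of a minimal exotic structure have no rigid class
-/

set_option autoImplicit false
set_option linter.unusedSectionVars false

namespace Pool.Agent.ETCT

open QS Pool.Agent.RFT Pool.Agent.ETG Pool.Agent.RFN Pool.Agent.AST Pool.Agent.ETCLH
open Pool.Agent.REG10
open Pool.Agent.Helper58.PLine (QData)
open Pool.Agent.ETCP (C)

/-- the zero relation of a set valued structure -/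
theorem eqQ_of_data {V Q : Type} [AddCommGroup V] [Module (ZMod 2) V] (D : QData V Q)
    (a b c d : V) : EqQ (fun a b => D.q a b = D.z) a b c d ↔ D.q a b = D.q c d := by
  constructor
  · rintro ⟨x, h1, h2, h3⟩
    have e1 : D.q a b = D.q a x := ETCP.q_eq (S := D) h1
    have e2 : D.q c d = D.q c x := ETCP.q_eq (S := D) h2
    have e3 : D.q a x = D.q c x := ETCP.q_eq' (S := D) h3
    rw [e1, e2, e3]
  · intro h
    exact ETCP.link h

theorem lz_of_data {V Q : Type} [AddCommGroup V] [Module (ZMod 2) V] (D : QData V Q)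
    (he : D.e = 0) : LZ (fun a b => D.q a b = D.z) := by
  refine ⟨fun a b h => ETCP.C.symm h, fun a => D.q_zero a, fun a b c h h' => ETCP.C.add h h',
    fun a => ETCP.C.self he a, ?_⟩
  intro a b c d a' b' h1 h2
  rw [eqQ_of_data] at h1 h2 ⊢
  exact h1.trans h2

section
variable {V Q : Type} [AddCommGroup V] [Module (ZMod 2) V]

/-- the classes of `a` and `b` commute in the Pfister quotient of `x` -/
def Pc (S : QData V Q) (x a b : V) : Prop :=
  ∃ a' b', C S x (a + a') ∧ C S x (b + b') ∧ C S a' b'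

theorem pc_iff {S : QData V Q} {x a b : V} :
    (ETC.pq S x).q (Submodule.Quotient.mk a) (Submodule.Quotient.mk b) = (ETC.pq S x).z ↔
      Pc S x a b := by
  rw [ETC.pq_mk, ETC.pq_z]
  unfold ETC.tri
  rw [ETC.triple_iff_comm]
  constructor
  · rintro ⟨u, v, h1, h2, h3⟩
    refine ⟨a + v, b + u, ?_, ?_, ETCP.C.symm h3⟩
    · rw [← add_assoc, ZModModule.add_self, zero_add]; exact h2
    · rw [← add_assoc, ZModModule.add_self, zero_add]; exact h1
  · rintro ⟨a', b', h1, h2, h3⟩
    refine ⟨b + b', a + a', h2, h1, ?_⟩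
    rw [← add_assoc, ZModModule.add_self, zero_add, ← add_assoc, ZModModule.add_self, zero_add]
    exact ETCP.C.symm h3

/-- a structure whose Pfister quotient has a rigid class has a prime functional -/
theorem prime_of_rigid_class [Finite V] {S : QData V Q} (he : S.e = 0) {x : V} (hx : x ≠ 0)
    (hr : ∃ a b, ¬ C S x a ∧ ¬ C S x b ∧ ¬ C S x (a + b))
    (hsm : Smaller V) {w : V} (hw : ¬ C S x w)
    (hrig : ∀ s, Pc S x w s → C S x s ∨ C S x (s + w)) :
    ∃ φ : V →ₗ[ZMod 2] ZMod 2, φ ≠ 0 ∧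
      ∀ p p', (∃ v, C S p v ∧ φ v = 1) → (∃ v, C S p' v ∧ φ v = 1) →
        (∃ v, C S (p + p') v ∧ φ v = 1) → ∃ v, C S p v ∧ C S p' v ∧ φ v = 1 := by
  classical
  set Z' : (V ⧸ S.ann x) → (V ⧸ S.ann x) → Prop :=
    fun a b => (ETC.pq S x).q a b = (ETC.pq S x).z with hZ'
  have hfin : Finite (V ⧸ S.ann x) :=
    Finite.of_surjective (S.ann x).mkQ (Submodule.mkQ_surjective _)
  have he' : (ETC.pq S x).e = 0 := by
    show (Submodule.Quotient.mk S.e : V ⧸ S.ann x) = 0
    rw [he]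
    rfl
  have hLZ : LZ Z' := lz_of_data _ he'
  have hxx : C S x x := ETCP.C.self he x
  have hcard : Nat.card (V ⧸ S.ann x) < Nat.card V := by
    have := Fintype.ofFinite V
    have := Fintype.ofFinite (V ⧸ S.ann x)
    rw [Nat.card_eq_fintype_card, Nat.card_eq_fintype_card]
    refine Fintype.card_lt_of_surjective_not_injective (S.ann x).mkQ
      (Submodule.mkQ_surjective _) ?_
    intro hinj
    apply hx
    apply hinj
    rw [map_zero, Submodule.mkQ_apply, Submodule.Quotient.mk_eq_zero]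
    exact hxx
  have hE : ETZ Z' := hsm _ _ hLZ hcard
  have mk0 : ∀ v : V, (Submodule.Quotient.mk v : V ⧸ S.ann x) = 0 ↔ C S x v := fun v => by
    rw [Submodule.Quotient.mk_eq_zero]
    exact Iff.rfl
  have mkeq : ∀ v v' : V, (Submodule.Quotient.mk v : V ⧸ S.ann x) = Submodule.Quotient.mk v' ↔
      C S x (v + v') := fun v v' => by
    rw [← mk0, Submodule.Quotient.mk_add]
    constructor
    · intro h
      rw [h, ZModModule.add_self]
    · intro h
      exact ETCP.eo h
  have hP : ∃ F, PF Z' F := by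
    apply pf_of_rig hLZ hE (g := Submodule.Quotient.mk w)
    · rw [Ne, mk0]; exact hw
    · intro y hy
      obtain ⟨s, rfl⟩ := (S.ann x).mkQ_surjective y
      rw [Submodule.mkQ_apply] at hy ⊢
      rw [mk0, mkeq]
      exact hrig s (pc_iff.1 hy)
  obtain ⟨F, hF, hFn⟩ := pf_min hLZ (fun F hL => by
    refine hsm F _ hL (lt_of_le_of_lt ?_ hcard)
    exact Nat.card_le_card_of_injective (Subtype.val : F → V ⧸ S.ann x) Subtype.val_injective) hP
  have hpc : ∀ a b, C S a b → Z' (Submodule.Quotient.mk a) (Submodule.Quotient.mk b) := by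
    intro a b h
    refine pc_iff.2 ⟨a, b, ?_, ?_, h⟩
    · rw [ZModModule.add_self]; exact ETCP.C.zero x
    · rw [ZModModule.add_self]; exact ETCP.C.zero x
  have R : RF S x (F.comap (S.ann x).mkQ) := by
    refine ⟨?_, ?_, ?_, ?_, ?_⟩
    · intro y hy
      rw [Submodule.mem_comap, Submodule.mkQ_apply, (mk0 y).2 hy]
      exact F.zero_mem
    · intro u hu y hy
      rcases hF.out _ hu _ (hpc u y hy) with h | h
      · exact Or.inl ((mk0 y).1 h)
      · exact Or.inr ((mkeq y u).1 h)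
    · intro f hf hfx y hy
      exact hF.inn _ hf (fun h => hfx ((mk0 f).1 h)) _ (hpc f y hy)
    · intro f hf hfx
      obtain ⟨d, h1, h2, h3⟩ := hFn _ hf (fun h => hfx ((mk0 f).1 h))
      obtain ⟨d, rfl⟩ := (S.ann x).mkQ_surjective d
      obtain ⟨f', d', g1, g2, g3⟩ := pc_iff.1 h1
      refine ⟨f', d', g1, g3, ?_, ?_⟩
      · intro h
        apply h2
        exact (mk0 d).2 ((g2.add h).of_eq rfl (ETCP.eo (by
          abel_nf; simp [ETCP.ch2, ETCP.ch3, ETCP.ch4])))
      · intro h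
        apply h3
        exact (mkeq d f).2 ((g2.add h).of_eq rfl (ETCP.eo (by
          abel_nf; simp [ETCP.ch2, ETCP.ch3, ETCP.ch4])))
    · intro h
      obtain ⟨v, hv⟩ := hF.ne
      obtain ⟨v, rfl⟩ := (S.ann x).mkQ_surjective v
      apply hv
      have : v ∈ F.comap (S.ann x).mkQ := by rw [h]; trivial
      exact this
  exact R.prime he hr

end

/-- **(K4)** for the facts `Mn` -/
theorem Mn.K4 {V Q : Type} [AddCommGroup V] [Module (ZMod 2) V] [Finite V] {D : QData V Q}
    (M : Mn D) (hsm : Smaller V) {x w : V} (hx : x ≠ 0) (hw : ¬ C D x w) :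
    ∃ w' s, C D x (w + w') ∧ C D w' s ∧ ¬ C D x s ∧ ¬ C D x (s + w) := by
  by_contra hcon
  push Not at hcon
  have hr : ∃ a b, ¬ C D x a ∧ ¬ C D x b ∧ ¬ C D x (a + b) := by
    by_contra hc
    push Not at hc
    apply hx
    apply M.r1 x
    intro v w
    by_cases h1 : C D x v
    · exact Or.inl h1
    · by_cases h2 : C D x w
      · exact Or.inr (Or.inl h2)
      · exact Or.inr (Or.inr (hc v w h1 h2))
  obtain ⟨φ, h0, hp⟩ := prime_of_rigid_class M.he hx hr hsm hw (by
    rintro s ⟨w', s', h1, h2, h3⟩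
    by_cases h4 : C D x s'
    · left
      exact (h2.add h4).of_eq rfl (ETCP.eo (by
        abel_nf; simp [ETCP.ch2, ETCP.ch3, ETCP.ch4]))
    · right
      exact (h2.add (hcon w' s' h1 h3 h4)).of_eq rfl (ETCP.eo (by
        abel_nf; simp [ETCP.ch2, ETCP.ch3, ETCP.ch4])))
  exact M.np φ h0 hp

/-- **(K4)** for relations -/
theorem K4Z {V : Type} [AddCommGroup V] [Module (ZMod 2) V] [Finite V] {Z : V → V → Prop}
    (hZ : LZ Z) (hsm : Smaller V) (hET : ¬ ETZ Z) {x w : V} (hx : x ≠ 0) (hw : ¬ Z x w) :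
    ∃ w' s, Z x (w + w') ∧ Z w' s ∧ ¬ Z x s ∧ ¬ Z x (s + w) := by
  have hz : ∀ a b, C (dat hZ) a b ↔ Z a b := dat_zero hZ
  obtain ⟨w', s, h1, h2, h3, h4⟩ := Mn.K4 (mn_of hZ hsm hET) hsm hx (fun h => hw ((hz x w).1 h))
  exact ⟨w', s, (hz _ _).1 h1, (hz _ _).1 h2, fun h => h3 ((hz _ _).2 h),
    fun h => h4 ((hz _ _).2 h)⟩

end Pool.Agent.ETCT
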