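import Pool.Agent.ETCT.K4P

/-!
# (K4+), first part: the facts of `K4P` relative to a subspace `G`

`G` takes the place of `V_x`: the elements outside `F` have rigid classes modulo `G`, the classes
in `F` which are not zero are not rigid and have their commutant inside `F`.
-/

set_option autoImplicit false
set_option linter.unusedSimpArgs false
set_option linter.unusedVariables false
set_option linter.unusedSectionVars false

namespace Pool.Agent.ETCT

open Pool.Agent.Helper58.PLine (QData exists_functional add_self_add)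
open Pool.Agent.ETCP Pool.Agent.ETCISO

variable {V Q : Type} [AddCommGroup V] [Module (ZMod 2) V]

/-- `G ≤ F < V`; elements outside `F` are rigid modulo `G`, and elements of `F` outside `G` are not
rigid modulo `G` and have commutant inside `F` -/
structure RFG (S : QData V Q) (G F : Submodule (ZMod 2) V) : Prop where
  le : G ≤ F
  out : ∀ u, u ∉ F → ∀ y, C S u y → y ∈ G ∨ y + u ∈ G
  inn : ∀ f ∈ F, f ∉ G → ∀ y, C S f y → y ∈ F
  nor : ∀ f ∈ F, f ∉ G → ∃ f' d, f + f' ∈ G ∧ C S f' d ∧ d ∉ G ∧ d + f ∉ G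
  ne : F ≠ ⊤

variable {S : QData V Q} {G F : Submodule (ZMod 2) V}

/-- a functional vanishing on `F` and one vanishing on `G` give a form of rank two -/
theorem rk2_of_RFG (he : S.e = 0) (R : RFG S G F) (f1 f2 : V →ₗ[ZMod 2] ZMod 2)
    (h1 : ∀ y ∈ F, f1 y = 0) (h2 : ∀ y ∈ G, f2 y = 0)
    (ha : ∃ a, f1 a = 1 ∧ f2 a = 0) (hb : ∃ b, f2 b = 1) : Rk2 S (f1.prod f2) := by
  refine ⟨he, ?_, ?_⟩
  · obtain ⟨a, ha1, ha2⟩ := ha
    obtain ⟨b, hb2⟩ := hb
    have hb' : ∃ b, f1 b = 0 ∧ f2 b = 1 := by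
      rcases (zv (a := f1 b)) with h | h
      · exact ⟨b, h, hb2⟩
      · refine ⟨a + b, ?_, ?_⟩
        · rw [map_add, ha1, h]; decide
        · rw [map_add, ha2, hb2]; decide
    obtain ⟨b', hb1', hb2'⟩ := hb'
    rintro ⟨i, j⟩
    refine ⟨i • a + j • b', ?_⟩
    show (f1 (i • a + j • b'), f2 (i • a + j • b')) = (i, j)
    rw [map_add, map_add, map_smul, map_smul, map_smul, map_smul, ha1, ha2, hb1', hb2']
    simp
  · have key : ∀ a b, C S a b → a ∉ F → dl ((f1.prod f2) a) ((f1.prod f2) b) = 0 := by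
      intro a b hab haF
      rcases R.out a haF b hab with h | h
      · have : (f1.prod f2) b = 0 := by
          show (f1 b, f2 b) = 0
          rw [h1 b (R.le h), h2 b h]; rfl
        rw [this, dl_comm, dl_zero]
      · have e1 := h1 _ (R.le h)
        have e2 := h2 _ h
        rw [map_add] at e1 e2
        have : (f1.prod f2) b = (f1.prod f2) a := by
          show (f1 b, f2 b) = (f1 a, f2 a)
          rw [eo (V := ZMod 2) e1, eo (V := ZMod 2) e2]
        rw [this, dl_self]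
    intro a b hab
    by_cases haF : a ∈ F
    · by_cases hbF : b ∈ F
      · show f1 a * f2 b + f2 a * f1 b = 0
        rw [h1 a haF, h1 b hbF]; ring
      · rw [dl_comm]
        exact key b a hab.symm hbF
    · exact key a b hab haF

/-- **(1)** `V_z < F` or `F < V_z + G` -/
theorem RFG.dich [Finite V] (he : S.e = 0) (R : RFG S G F) {z : V} (hz : z ∈ G) :
    S.ann z ≤ F ∨ F ≤ S.ann z ⊔ G := by
  by_contra hc
  push Not at hc
  obtain ⟨h1, h2⟩ := hc
  obtain ⟨a, ha, haF⟩ := Set.not_subset.1 h1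
  obtain ⟨b, hbF, hb⟩ := Set.not_subset.1 h2
  obtain ⟨f1, f1a, f10⟩ := exists_functional (p := F) haF
  obtain ⟨f2, f2b, f20⟩ := exists_functional (p := S.ann z ⊔ G) hb
  have hx2 : ∀ y ∈ G, f2 y = 0 := fun y hy => f20 y (Submodule.mem_sup_right hy)
  have hz2 : ∀ y, C S z y → f2 y = 0 := fun y hy => f20 y (Submodule.mem_sup_left hy)
  have f2a : f2 a = 0 := hz2 a ha
  have f1b : f1 b = 0 := f10 b hbF
  have X := rk2_of_RFG he R f1 f2 f10 hx2 ⟨a, f1a, f2a⟩ ⟨b, f2b⟩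
  have t1 : Ti S (f1.prod f2) ((1, 0) : E) z := by
    refine ⟨⟨?_, a, ?_, ha⟩, ?_⟩
    · show (f1 z, f2 z) = 0
      rw [f10 z (R.le hz), hx2 z hz]; rfl
    · show (f1 a, f2 a) = (1, 0)
      rw [f1a, f2a]
    · rintro j hj0 hj1 ⟨-, w, hw, hcw⟩
      have e2 : f2 w = 0 := hz2 w hcw
      have e3 : (f1 w, f2 w) = j := hw
      rw [e2] at e3
      rcases (zv (a := f1 w)) with h | h
      · rw [h] at e3; exact hj0 e3.symm
      · rw [h] at e3; exact hj1 e3.symm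
  have hxb : b ∉ G := fun h => hb (Submodule.mem_sup_right h)
  obtain ⟨f', d, k1, k2, k3, k4⟩ := R.nor b hbF hxb
  have hf'F : f' ∈ F := by
    have := F.add_mem hbF (R.le k1)
    rwa [show b + (b + f') = f' by
      exact eo (by abel_nf; simp [ch2, ch3, ch4])] at this
  have hf'x : f' ∉ G := by
    intro h
    apply hxb
    have := G.add_mem k1 h
    rwa [add_self_add b f'] at this
  have hf'2 : f2 f' = 1 := by
    have := hx2 _ k1
    rw [map_add, f2b] at this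
    exact (eo (V := ZMod 2) this).symm
  have hf'1 : f1 f' = 0 := f10 _ hf'F
  -- an element of the third type
  have fin : ∀ d', C S f' d' → f2 d' = 0 → d' ∉ G → False := by
    intro d' g1 g2 g3
    have hd'F : d' ∈ F := R.inn f' hf'F hf'x d' g1
    have t2 : Ti S (f1.prod f2) ((0, 1) : E) d' := by
      refine ⟨⟨?_, f', ?_, g1.symm⟩, ?_⟩
      · show (f1 d', f2 d') = 0
        rw [f10 _ hd'F, g2]; rfl
      · show (f1 f', f2 f') = (0, 1)
        rw [hf'1, hf'2]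
      · rintro j hj0 hj1 ⟨-, w, hw, hcw⟩
        have e2 : f1 w = 0 := f10 w (R.inn d' hd'F g3 w hcw)
        have e3 : (f1 w, f2 w) = j := hw
        rw [e2] at e3
        rcases (zv (a := f2 w)) with h | h
        · rw [h] at e3; exact hj0 e3.symm
        · rw [h] at e3; exact hj1 e3.symm
    exact X.R2 (i := (1, 0)) (j := (0, 1)) (by decide) (by decide) (by decide) t1 t2
  rcases (zv (a := f2 d)) with h | h
  · exact fin d k2 h k3
  · refine fin (d + f') (k2.add (C.self he f')) ?_ ?_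
    · rw [map_add, h, hf'2]; decide
    · intro h'
      apply k4
      have := G.add_mem h' k1
      rwa [show d + f' + (b + f') = d + b by
        exact eo (by abel_nf; simp [ch2, ch3, ch4])] at this

/-- **(2)** the chain property -/
theorem RFG.chain [Finite V] (he : S.e = 0) (R : RFG S G F) {z z' : V} (hz : z ∈ G)
    (hz' : z' ∈ G) : Gz S F z ≤ Gz S F z' ∨ Gz S F z' ≤ Gz S F z := by
  by_contra hc
  push Not at hc
  obtain ⟨a, ha, ha'⟩ := exists_of_not_leG hc.1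
  obtain ⟨b, hb, hb'⟩ := exists_of_not_leG hc.2
  obtain ⟨f1, f1a, f10⟩ := exists_functional ha'
  obtain ⟨f2, f2b, f20⟩ := exists_functional hb'
  have hF1 : ∀ y ∈ F, f1 y = 0 := fun y hy => f10 y (F_le_Gz z' hy)
  have hx1 : ∀ y ∈ G, f1 y = 0 := fun y hy => hF1 y (R.le hy)
  have hx2 : ∀ y ∈ G, f2 y = 0 := fun y hy => f20 y (F_le_Gz z (R.le hy))
  have f2a : f2 a = 0 := f20 a (ann_le_Gz z ha)
  have f1b : f1 b = 0 := f10 b (ann_le_Gz z' hb)
  have X := rk2_of_RFG he R f1 f2 hF1 hx2 ⟨a, f1a, f2a⟩ ⟨b, f2b⟩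
  have t1 : Ti S (f1.prod f2) ((1, 0) : E) z := by
    refine ⟨⟨?_, a, ?_, ha⟩, ?_⟩
    · show (f1 z, f2 z) = 0
      rw [hx1 z hz, hx2 z hz]; rfl
    · show (f1 a, f2 a) = (1, 0)
      rw [f1a, f2a]
    · rintro j hj0 hj1 ⟨-, w, hw, hcw⟩
      have e2 : f2 w = 0 := f20 w (ann_le_Gz z hcw)
      have e3 : (f1 w, f2 w) = j := hw
      rw [e2] at e3
      rcases (zv (a := f1 w)) with h | h
      · rw [h] at e3; exact hj0 e3.symm
      · rw [h] at e3; exact hj1 e3.symm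
  have t2 : Ti S (f1.prod f2) ((0, 1) : E) z' := by
    refine ⟨⟨?_, b, ?_, hb⟩, ?_⟩
    · show (f1 z', f2 z') = 0
      rw [hx1 z' hz', hx2 z' hz']; rfl
    · show (f1 b, f2 b) = (0, 1)
      rw [f1b, f2b]
    · rintro j hj0 hj1 ⟨-, w, hw, hcw⟩
      have e2 : f1 w = 0 := f10 w (ann_le_Gz z' hcw)
      have e3 : (f1 w, f2 w) = j := hw
      rw [e2] at e3
      rcases (zv (a := f2 w)) with h | h
      · rw [h] at e3; exact hj0 e3.symm
      · rw [h] at e3; exact hj1 e3.symm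
  exact X.R2 (i := (1, 0)) (j := (0, 1)) (by decide) (by decide) (by decide) t1 t2

/-- **(3)** the largest proper `V_z + F` -/
theorem RFG.star [Finite V] (he : S.e = 0) (R : RFG S G F) {x : V} (hx : x ∈ G)
    (hxG : S.ann x ≤ G) : ∃ Fs : Submodule (ZMod 2) V, F ≤ Fs ∧ Fs ≠ ⊤ ∧
      ∀ z ∈ G, ¬ S.ann z ≤ Fs → S.ann z ⊔ G = ⊤ := by
  classical
  obtain ⟨z0, ⟨hz0, hz0top⟩, hmax⟩ : ∃ z0, (z0 ∈ G ∧ Gz S F z0 ≠ ⊤) ∧
      ∀ z, z ∈ G ∧ Gz S F z ≠ ⊤ →
        Module.finrank (ZMod 2) (Gz S F z) ≤ Module.finrank (ZMod 2) (Gz S F z0) := by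
    have hfin : {z : V | z ∈ G ∧ Gz S F z ≠ ⊤}.Finite := Set.toFinite _
    have hne : {z : V | z ∈ G ∧ Gz S F z ≠ ⊤}.Nonempty := by
      refine ⟨x, hx, ?_⟩
      intro h
      apply R.ne
      rw [← h]
      unfold Gz
      exact (sup_eq_right.2 (hxG.trans R.le)).symm
    obtain ⟨z0, h1, h2⟩ := hfin.exists_maximalFor
      (fun z => Module.finrank (ZMod 2) (Gz S F z)) _ hne
    refine ⟨z0, h1, fun z hz => ?_⟩
    by_contra hc
    push Not at hc
    exact absurd (h2 hz hc.le) (not_le.2 hc)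
  have hprop : ∀ z, z ∈ G → Gz S F z ≠ ⊤ → Gz S F z ≤ Gz S F z0 := by
    intro z hz hzt
    rcases R.chain he hz hz0 with h | h
    · exact h
    · exact (Submodule.eq_of_le_of_finrank_le h (hmax z ⟨hz, hzt⟩)).ge
  refine ⟨Gz S F z0, F_le_Gz z0, hz0top, ?_⟩
  intro z hz hns
  have htop : Gz S F z = ⊤ := by
    by_contra hc
    exact hns ((ann_le_Gz z).trans (hprop z hz hc))
  rcases R.dich he hz with h | h
  · exfalso
    exact hns (h.trans (F_le_Gz z0))
  · rw [eq_top_iff, ← htop]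
    exact sup_le le_sup_left h

/-- an element outside `G + <v>` -/
theorem exists_third {v : V} (hr : ∃ a b, a ∉ G ∧ b ∉ G ∧ a + b ∉ G) :
    ∃ b, b ∉ G ⊔ Submodule.span (ZMod 2) {v} := by
  by_contra hb
  push Not at hb
  obtain ⟨a, b, h1, h2, h3⟩ := hr
  have key : ∀ y, y ∉ G → y + v ∈ G := by
    intro y hy
    obtain ⟨u, hu, w, hw, huw⟩ := Submodule.mem_sup.1 (hb y)
    obtain ⟨k, rfl⟩ := Submodule.mem_span_singleton.1 hw
    rcases (zv (a := k)) with rfl | rfl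
    · rw [zero_smul, add_zero] at huw
      rw [← huw] at hy
      exact absurd hu hy
    · rw [one_smul] at huw
      rw [← huw, add_self_add]
      exact hu
  apply h3
  have := G.add_mem (key a h1) (key b h2)
  rwa [show a + v + (b + v) = a + b by
    exact eo (by abel_nf; simp [ch2, ch3, ch4])] at this

/-- if `V_t + G = V` and `V_x < G`, then `V_(x+t)` is contained in `G`. -/
theorem RFG.hadd (he : S.e = 0) (R : RFG S G F)
    (hr : ∃ a b, a ∉ G ∧ b ∉ G ∧ a + b ∉ G) {x t : V} (hx : x ∈ G) (hxG : S.ann x ≤ G)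
    (ht : t ∈ G) (hN : S.ann t ⊔ G = ⊤) {w : V} (hw : C S (x + t) w) : w ∈ G := by
  by_contra hc
  -- two functionals which do not both vanish at `w`
  obtain ⟨f1, f2, h1, h2, ha, hb, hne⟩ : ∃ f1 f2 : V →ₗ[ZMod 2] ZMod 2, (∀ y ∈ F, f1 y = 0) ∧
      (∀ y ∈ G, f2 y = 0) ∧ (∃ a, f1 a = 1 ∧ f2 a = 0) ∧ (∃ b, f2 b = 1) ∧
      (f1 w = 1 ∨ f2 w = 1) := by
    by_cases hwF : w ∈ F
    · obtain ⟨v1, hv1⟩ : ∃ v, v ∉ F := by
        by_contra hcon
        push Not at hcon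
        exact R.ne (eq_top_iff.2 fun v _ => hcon v)
      obtain ⟨f1, f1v, f10⟩ := exists_functional (p := F) hv1
      obtain ⟨f2, f2w, f20⟩ := exists_functional (p := G) hc
      refine ⟨f1, f2, f10, fun y hy => f20 y hy, ?_, ⟨w, f2w⟩, Or.inr f2w⟩
      rcases (zv (a := f2 v1)) with h | h
      · exact ⟨v1, f1v, h⟩
      · refine ⟨v1 + w, ?_, ?_⟩
        · rw [map_add, f1v, f10 w hwF, add_zero]
        · rw [map_add, h, f2w]; decide
    · obtain ⟨b, hb⟩ := exists_third (v := w) hr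
      obtain ⟨f2, f2b, f20⟩ := exists_functional hb
      obtain ⟨f1, f1w, f10⟩ := exists_functional (p := F) hwF
      refine ⟨f1, f2, f10, fun y hy => f20 y (Submodule.mem_sup_left hy), ?_, ⟨b, f2b⟩,
        Or.inl f1w⟩
      exact ⟨w, f1w, f20 w (Submodule.mem_sup_right (Submodule.mem_span_singleton_self w))⟩
  have X := rk2_of_RFG he R f1 f2 h1 h2 ha hb
  have hG0 : ∀ w ∈ G, (f1.prod f2) w = 0 := by
    intro w hw
    show (f1 w, f2 w) = 0
    rw [h1 w (R.le hw), h2 w hw]; rfl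
  have h0 : ∀ w, C S x w → (f1.prod f2) w = 0 := fun w hw => hG0 w (hxG hw)
  have hT : t ∈ X.T := by
    intro i
    obtain ⟨v, hv⟩ := X.sur i
    have hvN : v ∈ S.ann t ⊔ G := by rw [hN]; trivial
    obtain ⟨v1, hv1, v2, hv2, rfl⟩ := Submodule.mem_sup.1 hvN
    refine ⟨hG0 t ht, v1, ?_, hv1⟩
    have : (f1.prod f2) v2 = 0 := hG0 v2 hv2
    rw [map_add, this, add_zero] at hv
    exact hv
  have h3 : (f1 w, f2 w) = (0 : E) := X.T0_add (hG0 x hx) h0 hT w hw
  rcases hne with h | h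
  · have h4 : f1 w = 0 := congrArg Prod.fst h3
    rw [h] at h4
    exact absurd h4 (by decide)
  · have h4 : f2 w = 0 := congrArg Prod.snd h3
    rw [h] at h4
    exact absurd h4 (by decide)

/-- **(4)** the elements of `G` with `V_t + G = V` form a subspace -/
theorem RFG.sub (he : S.e = 0) (R : RFG S G F)
    (hr : ∃ a b, a ∉ G ∧ b ∉ G ∧ a + b ∉ G) {Fs : Submodule (ZMod 2) V} (hF : F ≤ Fs)
    (hFs : Fs ≠ ⊤) (hst : ∀ z ∈ G, ¬ S.ann z ≤ Fs → S.ann z ⊔ G = ⊤) :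
    ∃ M : Submodule (ZMod 2) V, ∀ t, t ∈ M ↔ t ∈ G ∧ S.ann t ⊔ G = ⊤ := by
  obtain ⟨v0, hv0⟩ : ∃ v, v ∉ Fs := by
    by_contra hcon
    push Not at hcon
    exact hFs (eq_top_iff.2 fun v _ => hcon v)
  obtain ⟨b, hb⟩ := exists_third (v := v0) hr
  obtain ⟨f2, f2b, f20⟩ := exists_functional hb
  obtain ⟨f1, f1v, f10⟩ := exists_functional (p := Fs) hv0
  have h2 : ∀ y ∈ G, f2 y = 0 := fun y hy => f20 y (Submodule.mem_sup_left hy)
  have f2v : f2 v0 = 0 :=
    f20 v0 (Submodule.mem_sup_right (Submodule.mem_span_singleton_self v0))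
  have X := rk2_of_RFG he R f1 f2 (fun y hy => f10 y (hF hy)) h2 ⟨v0, f1v, f2v⟩ ⟨b, f2b⟩
  have hG0 : ∀ w ∈ G, (f1.prod f2) w = 0 := by
    intro w hw
    show (f1 w, f2 w) = 0
    rw [f10 w (hF (R.le hw)), h2 w hw]; rfl
  refine ⟨G ⊓ X.T, fun t => ?_⟩
  rw [Submodule.mem_inf]
  constructor
  · rintro ⟨h1, h3⟩
    refine ⟨h1, hst t h1 ?_⟩
    intro h4
    obtain ⟨-, v, hv, hc⟩ := h3 (1, 0)
    have : f1 v = 1 := congrArg Prod.fst hv
    rw [f10 v (h4 hc)] at this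
    exact absurd this (by decide)
  · rintro ⟨h1, hN⟩
    refine ⟨h1, ?_⟩
    intro i
    obtain ⟨v, hv⟩ := X.sur i
    have hvN : v ∈ S.ann t ⊔ G := by rw [hN]; trivial
    obtain ⟨v1, hv1, v2, hv2, rfl⟩ := Submodule.mem_sup.1 hvN
    refine ⟨hG0 t h1, v1, ?_, hv1⟩
    have : (f1.prod f2) v2 = 0 := hG0 v2 hv2
    rw [map_add, this, add_zero] at hv
    exact hv

/-- **everything needed for the count of (K4+)** -/
theorem RFG.all [Finite V] (he : S.e = 0) (R : RFG S G F)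
    (hr : ∃ a b, a ∉ G ∧ b ∉ G ∧ a + b ∉ G) {x : V} (hx : x ∈ G) (hxG : S.ann x ≤ G) :
    ∃ Fs M : Submodule (ZMod 2) V, G ≤ Fs ∧ F ≤ Fs ∧ Fs ≠ ⊤ ∧
      (∀ z ∈ G, ¬ S.ann z ≤ Fs → S.ann z ⊔ G = ⊤) ∧
      (∀ t, t ∈ M ↔ t ∈ G ∧ S.ann t ⊔ G = ⊤) ∧ x ∉ M ∧
      (∀ t ∈ M, ∀ w, C S (x + t) w → w ∈ G) ∧
      (∀ u, u ∉ Fs → ∀ y, C S u y → y ∈ G ∨ y + u ∈ G) := by
  obtain ⟨Fs, h1, h2, h3⟩ := R.star he hx hxG
  obtain ⟨M, hM⟩ := R.sub he hr h1 h2 h3
  refine ⟨Fs, M, R.le.trans h1, h1, h2, h3, hM, ?_, ?_, ?_⟩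
  · intro h
    have := ((hM x).1 h).2
    rw [sup_eq_right.2 hxG] at this
    exact h2 (eq_top_iff.2 (this ▸ (R.le.trans h1)))
  · intro t ht w hw
    exact R.hadd he hr hx hxG ((hM t).1 ht).1 ((hM t).1 ht).2 hw
  · intro u hu
    exact R.out u fun h => hu (h1 h)

end Pool.Agent.ETCT
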