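import Pool.Agent.ETCT.K4G
import Pool.Agent.ETCT.K4

/-!
# (K4+), the end: if the rigid part splits off (`V_z = G` for some `z`), there is a prime functional
-/

set_option autoImplicit false
set_option linter.unusedSectionVars false

namespace Pool.Agent.ETCT

open Pool.Agent.Helper58.PLine (QData exists_functional add_self_add)
open Pool.Agent.ETCP Pool.Agent.ETCISO
open QS Pool.Agent.RFT Pool.Agent.ETG Pool.Agent.RFN Pool.Agent.AST Pool.Agent.ETCLH
open Pool.Agent.REG10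

variable {V Q : Type} [AddCommGroup V] [Module (ZMod 2) V]
variable {S : QData V Q} {G F : Submodule (ZMod 2) V}

/-- if `V_z = G`, the data `RFG` are the data `RF` of `z` -/
theorem RFG.toRF (R : RFG S G F) {z : V} (h : S.ann z = G) : RF S z F := by
  have m : ∀ y, C S z y ↔ y ∈ G := fun y => by rw [← h]; exact Iff.rfl
  refine ⟨fun y hy => R.le ((m y).1 hy), ?_, ?_, ?_, R.ne⟩
  · intro u hu y hy
    rcases R.out u hu y hy with h1 | h1
    · exact Or.inl ((m _).2 h1)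
    · exact Or.inr ((m _).2 h1)
  · intro f hf hfz y hy
    exact R.inn f hf (fun h1 => hfz ((m _).2 h1)) y hy
  · intro f hf hfz
    obtain ⟨f', d, h1, h2, h3, h4⟩ := R.nor f hf (fun h1 => hfz ((m _).2 h1))
    exact ⟨f', d, (m _).2 h1, h2, fun h5 => h3 ((m _).1 h5), fun h5 => h4 ((m _).1 h5)⟩

/-- **the end of (K4+)**: `V_z = G` gives a prime functional -/
theorem RFG.prime [Finite V] (he : S.e = 0) (R : RFG S G F)
    (hr : ∃ a b, a ∉ G ∧ b ∉ G ∧ a + b ∉ G) {z : V} (h : S.ann z = G) :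
    ∃ φ : V →ₗ[ZMod 2] ZMod 2, φ ≠ 0 ∧
      ∀ p p', (∃ v, C S p v ∧ φ v = 1) → (∃ v, C S p' v ∧ φ v = 1) →
        (∃ v, C S (p + p') v ∧ φ v = 1) → ∃ v, C S p v ∧ C S p' v ∧ φ v = 1 := by
  have m : ∀ y, C S z y ↔ y ∈ G := fun y => by rw [← h]; exact Iff.rfl
  obtain ⟨a, b, h1, h2, h3⟩ := hr
  exact (R.toRF h).prime he ⟨a, b, fun h4 => h1 ((m _).1 h4), fun h4 => h2 ((m _).1 h4),
    fun h4 => h3 ((m _).1 h4)⟩

/-- in a least exotic structure no `V_z` is equal to the `G` of data `RFG` -/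
theorem Mn.noRFG [Finite V] (M : Mn S) (R : RFG S G F)
    (hr : ∃ a b, a ∉ G ∧ b ∉ G ∧ a + b ∉ G) (z : V) : S.ann z ≠ G := by
  intro h
  obtain ⟨φ, h0, hp⟩ := R.prime M.he hr h
  exact M.np φ h0 hp

end Pool.Agent.ETCT
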