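import Pool.Agent.ETCT.K4GE
import Pool.Agent.HAS53.Main

/-!
# (K4+), the glue: if the values `q (x, p v)` are attained at `v` by elements of a set `X` all of
whose elements have these values, then the map `v -> q (x, p v)` is inner
-/

set_option autoImplicit false
set_option linter.unusedSectionVars false

namespace Pool.Agent.ETCT

open Pool.Agent.Helper58.PLine (QData exists_functional add_self_add)
open Pool.Agent.ETCP Pool.Agent.ETCISO
open QS Pool.Agent.RFT Pool.Agent.ETG Pool.Agent.RFN Pool.Agent.AST Pool.Agent.ETCLH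
open Pool.Agent.REG10

variable {V Q : Type} [AddCommGroup V] [Module (ZMod 2) V]
variable {S : QData V Q} {G F : Submodule (ZMod 2) V}

/-- the set valued bilinear map of a `QData` -/
def bdq (S : QData V Q) : ZPC2.BD V V Q where
  q := S.q
  z := S.z
  qr := fun v w w1 => S.add v w w1
  ql := fun v v1 w => q_eq'_iff

theorem bdq_sy (S : QData V Q) : HAS53.Sy (bdq S) := fun x y => S.symm x y

theorem bdq_xl (S : QData V Q) : LF53.XL (bdq S) := by
  rintro c v w ⟨a, ha⟩ ⟨b, hb⟩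
  obtain ⟨t, h1, h2⟩ := S.link v a w b (ha.trans hb.symm)
  exact ⟨t, h1.symm.trans ha, h2.symm.trans hb⟩

/-- Theorem Hasse for a `QData` -/
theorem hasseQ [Finite V] (S : QData V Q) (φ : V → Q)
    (h : ∀ v w, ∃ t, S.q v t = φ v ∧ S.q w t = φ w ∧ S.q (v + w) t = φ (v + w)) :
    ∃ t, ∀ v, φ v = S.q v t :=
  HAS53.hasse (D := bdq S) (bdq_sy S) (bdq_xl S) φ h

/-- `q (v, t) = q (s, v + g)` implies `q (v, t + s) = q (s, g)` -/
theorem shiftQ (he : S.e = 0) {v t s g : V} (h : S.q v t = S.q s (v + g)) :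
    S.q v (t + s) = S.q s g := by
  obtain ⟨c, h1, h2⟩ := S.link v t s (v + g) h
  have hvs : C S (v + s) c := q_eq'_iff.1 (h1.symm.trans (h.trans h2))
  have a1 : C S v (t + c) := q_eq_iff.1 h1
  have a2 : C S s (v + g + c) := q_eq_iff.1 h2
  have b1 : S.q v (t + s) = S.q v (c + s) := by
    rw [q_eq_iff]
    exact a1.of_eq rfl (eo (by abel_nf; simp [ch2, ch3, ch4]))
  have b2 : S.q s g = S.q s (c + v) := by
    rw [q_eq_iff]
    exact a2.of_eq rfl (eo (by abel_nf; simp [ch2, ch3, ch4]))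
  have c1 : S.q v (c + s) = S.q (v + (c + s)) (c + s) := by
    rw [q_eq'_iff]
    exact (C.self he (c + s)).of_eq (eo (by abel_nf; simp [ch2, ch3, ch4])) rfl
  have c2 : S.q s (c + v) = S.q (s + (c + v)) (c + v) := by
    rw [q_eq'_iff]
    exact (C.self he (c + v)).of_eq (eo (by abel_nf; simp [ch2, ch3, ch4])) rfl
  have c3 : S.q (v + (c + s)) (c + s) = S.q (v + (c + s)) (c + v) := by
    rw [q_eq_iff]
    have d1 : C S (v + s) (v + s) := C.self he _
    exact (hvs.symm.add' d1).of_eq (eo (by abel_nf; simp [ch2, ch3, ch4]))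
      (eo (by abel_nf; simp [ch2, ch3, ch4]))
  have c4 : S.q (v + (c + s)) (c + v) = S.q (s + (c + v)) (c + v) := by
    rw [show v + (c + s) = s + (c + v) by abel]
  rw [b1, c1, c3, c4, ← c2, b2]

/-- the map `v -> q (x, p v)` is inner on every plane -/
theorem planeQ (he : S.e = 0) {x : V} (p : V →ₗ[ZMod 2] V) (X : V → Prop)
    (hA : ∀ s, X s → ∀ v, ∃ y, S.q s y = S.q x (p v))
    (hB : ∀ v, ∃ s, X s ∧ S.q v s = S.q x (p v)) (v w : V) :
    ∃ t, S.q v t = S.q x (p v) ∧ S.q w t = S.q x (p w) ∧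
      S.q (v + w) t = S.q x (p (v + w)) := by
  obtain ⟨s, hs, hs3⟩ := hB (v + w)
  obtain ⟨t1, -, ht1⟩ := hB v
  obtain ⟨t2, -, ht2⟩ := hB w
  -- `q (s, z) = q (x, z)` for some `z` in `p v + V_x`
  have hz : ∀ u, ∃ z, C S x (p u + z) ∧ C S (s + x) z := by
    intro u
    obtain ⟨y, hy⟩ := hA s hs u
    obtain ⟨z, h1, h2⟩ := S.link s y x (p u) hy
    exact ⟨z, q_eq_iff.1 h2, q_eq'_iff.1 (h1.symm.trans (hy.trans h2))⟩
  obtain ⟨z1, g1, k1⟩ := hz v
  obtain ⟨z2, g2, k2⟩ := hz w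
  -- values
  have e1 : S.q s z1 = S.q x (p v) := by
    rw [q_eq'_iff.2 k1, q_eq_iff]
    exact g1.of_eq rfl (add_comm _ _)
  have e2 : S.q s z2 = S.q x (p w) := by
    rw [q_eq'_iff.2 k2, q_eq_iff]
    exact g2.of_eq rfl (add_comm _ _)
  have e3 : S.q s (z1 + z2) = S.q x (p (v + w)) := by
    rw [q_eq'_iff.2 (k1.add k2), q_eq_iff]
    refine (g1.add g2).of_eq rfl ?_
    rw [map_add]
    exact eo (by abel_nf; simp [ch2, ch3, ch4])
  -- `z1 + z2 = v + w` modulo `V_s`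
  have e4 : C S s (z1 + z2 + (v + w)) := by
    rw [← q_eq_iff, e3, ← hs3, S.symm]
  -- `g = z1 + v`
  have f1 : S.q v t1 = S.q s (v + (z1 + v)) := by
    rw [show v + (z1 + v) = z1 by exact eo (by abel_nf; simp [ch2, ch3, ch4]), e1, ht1]
  have f2 : S.q w t2 = S.q s (w + (z1 + v)) := by
    rw [ht2, ← e2, q_eq_iff]
    exact e4.of_eq rfl (eo (by abel_nf; simp [ch2, ch3, ch4]))
  have m1 := shiftQ he f1
  have m2 := shiftQ he f2
  obtain ⟨r, r1, r2⟩ := S.link v (t1 + s) w (t2 + s) (m1.trans m2.symm)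
  have hvw : C S (v + w) r := q_eq'_iff.1 (r1.symm.trans (m1.trans (m2.symm.trans r2)))
  have n1 : C S v (t1 + s + r) := q_eq_iff.1 r1
  have n2 : C S w (t2 + s + r) := q_eq_iff.1 r2
  refine ⟨r + s, ?_, ?_, ?_⟩
  · rw [← ht1, q_eq_iff]
    exact n1.of_eq rfl (eo (by abel_nf; simp [ch2, ch3, ch4]))
  · rw [← ht2, q_eq_iff]
    exact n2.of_eq rfl (eo (by abel_nf; simp [ch2, ch3, ch4]))
  · rw [← hs3, q_eq_iff]
    exact hvw.of_eq rfl (eo (by abel_nf; simp [ch2, ch3, ch4]))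

/-- **the glue**: the map `v -> q (x, p v)` is inner -/
theorem glueQ [Finite V] (he : S.e = 0) {x : V} (p : V →ₗ[ZMod 2] V) (X : V → Prop)
    (hA : ∀ s, X s → ∀ v, ∃ y, S.q s y = S.q x (p v))
    (hB : ∀ v, ∃ s, X s ∧ S.q v s = S.q x (p v)) :
    ∃ z, ∀ v, S.q v z = S.q x (p v) := by
  obtain ⟨z, hz⟩ := hasseQ S (fun v => S.q x (p v)) (planeQ he p X hA hB)
  exact ⟨z, fun v => (hz v).symm⟩

/-- the annihilator of the element found by `glueQ` is `G` -/
theorem ann_glue {x z : V} (p : V →ₗ[ZMod 2] V) (hxG : S.ann x ≤ G)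
    (hp : ∀ u, u + p u ∈ G) (hg : ∀ g ∈ G, C S x (p g)) (hz : ∀ v, S.q v z = S.q x (p v)) :
    S.ann z = G := by
  apply le_antisymm
  · intro v hv
    have h1 : C S z v := hv
    have h2 : C S x (p v) := by
      have h3 : S.q v z = S.z := by
        rw [S.symm]
        exact h1
      exact (hz v).symm.trans h3
    have h4 : p v ∈ G := hxG h2
    have h5 := G.add_mem (hp v) h4
    rwa [add_self_add] at h5
  · intro v hv
    show C S z v
    have h2 : S.q v z = S.z := (hz v).trans (hg v hv)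
    show S.q z v = S.z
    rw [S.symm]
    exact h2

/-- **(K4+)** up to the count: in a least exotic structure the data `RFG` do not occur together
with a set `X` with `hA` and `hB` -/
theorem Mn.noK4 [Finite V] (M : Mn S) (R : RFG S G F)
    (hr : ∃ a b, a ∉ G ∧ b ∉ G ∧ a + b ∉ G) {x : V} (hxG : S.ann x ≤ G)
    (p : V →ₗ[ZMod 2] V) (hp : ∀ u, u + p u ∈ G) (hg : ∀ g ∈ G, C S x (p g)) (X : V → Prop)
    (hA : ∀ s, X s → ∀ v, ∃ y, S.q s y = S.q x (p v))
    (hB : ∀ v, ∃ s, X s ∧ S.q v s = S.q x (p v)) : False := by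
  obtain ⟨z, hz⟩ := glueQ M.he p X hA hB
  exact Mn.noRFG M R hr z (ann_glue p hxG hp hg hz)

end Pool.Agent.ETCT
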