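import Pool.Agent.ETCLH.Conv

/-!
Note 2446 (helper1): the two-symbol law (TWO) implies (LCZ), (LCZ) implies that elements of maximal
rank are regular, hence the elementary type conjecture for `-1 = 1`.
-/

set_option autoImplicit false
set_option linter.unusedSimpArgs false

namespace Pool.Agent.ETCT

open Module
open Pool.Agent.Helper58.PLine (QData)
open Pool.Agent.ETCP Pool.Agent.ETCLH

variable {V Q : Type} [AddCommGroup V] [Module (ZMod 2) V]

/-- `u` is in the centre of `V_z`: everything commuting with `z` commutes with `u` -/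
def Cen (D : QData V Q) (z u : V) : Prop := ∀ v, C D z v → C D u v

/-- law (TWO) at `(z, y)` -/
def TWOat (D : QData V Q) (z y : V) : Prop := ∀ a b : Q, (∃ p, D.q z p = a) → (∃ p, D.q z p = b) →
  (∃ p, D.q y p = a) → (∃ p, D.q (y + z) p = b) →
  ∃ u, Cen D z u ∧ (∃ p, D.q (y + u) p = a) ∧ ∃ p, D.q (y + u) p = b

/-- law (LCZ) at `(z, w)` -/
def LCZat (D : QData V Q) (z w : V) : Prop := ∃ u, Cen D z u ∧ ∀ p, C D (w + u) p →
  ∃ s, C D (w + u + z) s ∧ C D z (p + s)

variable {D : QData V Q}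

theorem Cen.zero (z : V) : Cen D z 0 := fun v _ => C.zero' v

theorem Cen.self (z : V) : Cen D z z := fun _ h => h

theorem Cen.add {z u u' : V} (h : Cen D z u) (h' : Cen D z u') : Cen D z (u + u') :=
  fun v hv => (h v hv).add' (h' v hv)

theorem Cen.mem (he : D.e = 0) {z u : V} (h : Cen D z u) : C D z u := (h z (C.self he z)).symm

/-- `v` annihilates `q (z, s)` modulo `q (w, V_z)` -/
def Ann (D : QData V Q) (z w s v : V) : Prop := Cen D z v ∧ ∃ k, C D z k ∧ D.q v s = D.q w k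

theorem Ann.add {z w s s' v : V} (h : Ann D z w s v) (h' : Ann D z w s' v) :
    Ann D z w (s + s') v := by
  obtain ⟨h1, k, hk, e⟩ := h
  obtain ⟨_, k', hk', e'⟩ := h'
  exact ⟨h1, k + k', hk.add hk', qsum e e'⟩

/-- `q (z, s)` is in `q (w, V_z)` -/
def InM (D : QData V Q) (z w s : V) : Prop := ∃ k, C D z k ∧ D.q z s = D.q w k

theorem InM.ann {z w s : V} (h : InM D z w s) : Ann D z w s z := ⟨Cen.self z, h⟩

theorem inM_iff {z w s : V} : InM D z w s ↔
    (∃ t, C D w t ∧ C D z (s + t)) ∧ ∃ t, C D (w + z) t ∧ C D z (s + t) := by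
  constructor
  · rintro ⟨k, hk, e⟩
    obtain ⟨x, h1, h2, h3⟩ := link e
    refine ⟨⟨k + x, h2, ?_⟩, x, h3.of_eq (add_comm _ _) rfl, h1⟩
    exact (h1.add hk).of_eq rfl (eo (by abel_nf <;> simp only [ch2, ch3, ch4, add_zero, zero_add]))
  · rintro ⟨⟨t, h1, h2⟩, x, h3, h4⟩
    refine ⟨t + x, ?_, ?_⟩
    · exact (h2.add h4).of_eq rfl (eo (by abel_nf <;> simp only [ch2, ch3, ch4, add_zero, zero_add]))
    · rw [q_eq_iff.2 h4, qaddl h1]
      exact (q_eq'_iff.2 h3).symm

/-- `q (w, k) = q (w + u, k)` for central `u` and `k` in `V_z` -/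
theorem q_cen {z w u k : V} (hu : Cen D z u) (hk : C D z k) : D.q (w + u) k = D.q w k :=
  qadd' (hu k hk)

theorem InM.cen {z w s u : V} (hu : Cen D z u) : InM D z (w + u) s ↔ InM D z w s := by
  constructor
  · rintro ⟨k, hk, e⟩
    exact ⟨k, hk, by rw [e, q_cen hu hk]⟩
  · rintro ⟨k, hk, e⟩
    exact ⟨k, hk, by rw [e, q_cen hu hk]⟩

theorem Ann.cen {z w s u v : V} (hu : Cen D z u) : Ann D z (w + u) s v ↔ Ann D z w s v := by
  constructor
  · rintro ⟨h, k, hk, e⟩
    exact ⟨h, k, hk, by rw [e, q_cen hu hk]⟩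
  · rintro ⟨h, k, hk, e⟩
    exact ⟨h, k, hk, by rw [e, q_cen hu hk]⟩

theorem Ann.of_eq {z w s s' v : V} (h : Ann D z w s v) (hs : C D z (s + s')) :
    Ann D z w s' v := by
  obtain ⟨h1, k, hk, e⟩ := h
  exact ⟨h1, k, hk, by rw [← e]; exact (q_eq_iff.2 (h1 _ hs)).symm⟩

/-- (TWO) gives (LCZ) -/
theorem LCZ_of_TWO [Finite V] {z : V} (hT : ∀ y, TWOat D z y) (w : V) :
    LCZat D z w := by
  classical
  by_contra hcon
  have bad : ∀ u, Cen D z u → ∃ p, C D (w + u) p ∧ ∀ s, C D (w + u + z) s → ¬ C D z (p + s) := by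
    intro u hu
    by_contra h
    push Not at h
    exact hcon ⟨u, hu, h⟩
  -- the invariant: `u` central, `p` commutes with `w + u`, `q (z, p)` is not in `q (w, V_z)`
  let Pr : ℕ → Prop := fun n => ∃ u p, Cen D z u ∧ C D (w + u) p ∧
    (¬ ∃ t, C D (w + u + z) t ∧ C D z (p + t)) ∧ Nat.card {v // Ann D z (w + u) p v} = n
  have hex : ∃ n, Pr n := by
    obtain ⟨p, h1, h2⟩ := bad 0 (Cen.zero z)
    exact ⟨_, 0, p, Cen.zero z, h1, fun ⟨t, h3, h4⟩ => h2 t h3 h4, rfl⟩
  obtain ⟨u0, p, hu0, hp, hpM, hn⟩ := Nat.find_spec hex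
  have hmin : ∀ m, Pr m → Nat.find hex ≤ m := fun m hm => Nat.find_min' hex hm
  set W := w + u0 with hW
  obtain ⟨p1, hp1, hp1M⟩ := bad (u0 + z) (hu0.add (Cen.self z))
  have hp1' : C D (W + z) p1 := hp1.of_eq (by rw [hW, add_assoc]) rfl
  have hp1M' : ∀ s, C D W s → ¬ C D z (p1 + s) := by
    intro s hs
    refine hp1M s (hs.of_eq ?_ rfl)
    rw [hW]
    exact eo (by abel_nf <;> simp only [ch2, ch3, ch4, add_zero, zero_add])
  -- `h = q (z, p)`, `h1 = q (z, p1)`
  have e1 : D.q W p1 = D.q z p1 := q_eq'_iff.2 hp1'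
  have e2 : D.q (W + z) p = D.q z p := qaddl' hp
  obtain ⟨u, hu, ⟨r1, hr1⟩, ⟨r, hr⟩⟩ := hT W (D.q z p1) (D.q z p) ⟨p1, rfl⟩ ⟨p, rfl⟩ ⟨p1, e1⟩
    ⟨p, e2⟩
  -- `p + k` and `p1 + k1` commute with `W + u + z`
  obtain ⟨x, hx1, hx2, hx3⟩ := link hr.symm
  obtain ⟨x1, hy1, hy2, hy3⟩ := link hr1.symm
  have hx3' : C D (W + u + z) x := hx3.of_eq (by rw [add_comm]) rfl
  have hy3' : C D (W + u + z) x1 := hy3.of_eq (by rw [add_comm]) rfl
  -- (i)
  have hzu : Cen D z (u + z) := hu.add (Cen.self z)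
  have i1 : Ann D z W p (u + z) := by
    refine ⟨hzu, p + x, hx1, ?_⟩
    -- `q (u + z, p) = q (u + z, x) = q (W, x) = q (W, p + x)`
    have a1 : D.q (u + z) p = D.q (u + z) x := q_eq_iff.2 (hzu _ hx1)
    have a2 : D.q (u + z) x = D.q W x := (q_eq'_iff.2 (hx3'.of_eq (by rw [add_assoc]) rfl)).symm
    rw [a1, a2, qaddl hp]
  have i2 : Ann D z W p1 u := by
    refine ⟨hu, p1 + x1, hy1, ?_⟩
    -- `q (u, p1) = q (u, x1) = q (W + z, x1) = q (W + z, p1 + x1) = q (W, p1 + x1)`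
    have a1 : D.q u p1 = D.q u x1 := q_eq_iff.2 (hu _ hy1)
    have a2 : D.q u x1 = D.q (W + z) x1 := by
      apply q_eq'_iff.2
      exact hy3'.of_eq (eo (by abel_nf <;> simp only [ch2, ch3, ch4, add_zero, zero_add])) rfl
    have a3 : D.q (W + z) (p1 + x1) = D.q (W + z) x1 := qaddl hp1'
    have a4 : D.q (W + z) (p1 + x1) = D.q W (p1 + x1) := qadd' hy1
    rw [a1, a2, ← a3, a4]
  have i3 : ¬ Ann D z W p1 z := by
    rintro ⟨_, k, hk, e⟩
    obtain ⟨⟨t, h1, h2⟩, -⟩ := inM_iff.1 ⟨k, hk, e⟩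
    exact hp1M' t h1 h2
  have i4 : ¬ Ann D z W p1 (u + z) := by
    rintro ⟨_, k, hk, e⟩
    obtain ⟨_, k', hk', e'⟩ := i2
    apply i3
    refine ⟨Cen.self z, k + k', hk.add hk', ?_⟩
    have a : D.q p1 ((u + z) + u) = D.q W (k + k') := by
      apply qsum
      · rw [D.symm]; exact e
      · rw [D.symm]; exact e'
    rw [← a, D.symm, show u + z + u = z from
      eo (by abel_nf <;> simp only [ch2, ch3, ch4, add_zero, zero_add])]
  -- (ii) the new pair
  have e0 : C D (W + u + z) (x + x1) := hx3'.add hy3'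
  have hW' : w + (u0 + (u + z)) = W + (u + z) := by rw [hW, add_assoc]
  have hxp : C D z (x + p) := hx1.of_eq rfl (add_comm _ _)
  have hnotM : ¬ InM D z W (x + x1) := by
    intro h
    obtain ⟨⟨t, h1, h2⟩, -⟩ := inM_iff.1 h
    apply hp1M' (t + p) (h1.add hp)
    exact ((h2.add hxp).add hy1).of_eq rfl
      (eo (by abel_nf <;> simp only [ch2, ch3, ch4, add_zero, zero_add]))
  have hnew : Pr (Nat.card {v // Ann D z (w + (u0 + (u + z))) (x + x1) v}) := by
    refine ⟨u0 + (u + z), x + x1, hu0.add hzu, e0.of_eq ?_ rfl, ?_, rfl⟩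
    · rw [hW', add_assoc]
    · rintro ⟨t, ht1, ht2⟩
      rw [hW'] at ht1
      apply hnotM
      apply (InM.cen (u := u + z) hzu).1
      rw [inM_iff]
      exact ⟨⟨x + x1, e0.of_eq (by rw [add_assoc]) rfl,
        (C.zero z).of_eq rfl (by rw [ZModModule.add_self])⟩, t, ht1, ht2⟩
  have hlt : Nat.card {v // Ann D z (w + (u0 + (u + z))) (x + x1) v} <
      Nat.card {v // Ann D z (w + u0) p v} := by
    rw [hW', ← hW]
    have hsub1 : ∀ v, Ann D z (W + (u + z)) (x + x1) v → Ann D z W p1 v := by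
      intro v hv
      have hv1 := (Ann.cen hzu).1 hv
      have hv2 : Ann D z W (p + p1) v := by
        refine hv1.of_eq ?_
        exact (hx1.add hy1).of_eq rfl
          (eo (by abel_nf <;> simp only [ch2, ch3, ch4, add_zero, zero_add]))
      obtain ⟨hvc, k, hk, e⟩ := hv2
      -- `q (W + v, p + p1 + k) = q (z, p1)`
      obtain ⟨y, hy4, hy5, hy6⟩ := link e
      have b1 : D.q (W + v) (p + p1 + k) = D.q z p1 := by
        have c1 : D.q (W + v) (p + p1 + k) = D.q (W + v) (p + p1 + k + y) :=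
          (qadd (hy6.of_eq (add_comm _ _) rfl)).symm
        have c2 : C D v (p + p1 + k + y) := (hy4.add (hvc _ hk)).of_eq rfl
          (eo (by abel_nf <;> simp only [ch2, ch3, ch4, add_zero, zero_add]))
        have c3 : D.q (W + v) (p + p1 + k + y) = D.q W (p + p1 + k + y) := qadd' c2
        have c4 : D.q W (p + p1 + k + y) = D.q W p1 := by
          apply q_eq_iff.2
          exact (hp.add hy5).of_eq rfl
            (eo (by abel_nf <;> simp only [ch2, ch3, ch4, add_zero, zero_add]))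
        rw [c1, c3, c4, e1]
      obtain ⟨y1, g1, g2, g3⟩ := link b1
      -- `q (W + v + z, y1) = 0`, `q (z, p1 + y1) = 0`
      refine ⟨hvc, p1 + y1, g2, ?_⟩
      have d1 : D.q v p1 = D.q v y1 := q_eq_iff.2 (hvc _ g2)
      have d2 : D.q v y1 = D.q (W + z) y1 := by
        apply q_eq'_iff.2
        exact g3.of_eq (eo (by abel_nf <;> simp only [ch2, ch3, ch4, add_zero, zero_add])) rfl
      have d3 : D.q (W + z) (p1 + y1) = D.q (W + z) y1 := qaddl hp1'
      have d4 : D.q (W + z) (p1 + y1) = D.q W (p1 + y1) := qadd' g2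
      rw [d1, d2, ← d3, d4]
    have hsub : ∀ v, Ann D z (W + (u + z)) (x + x1) v → Ann D z W p v := by
      intro v hv
      have hv1 := (Ann.cen hzu).1 hv
      refine (hv1.add (hsub1 v hv)).of_eq ?_
      exact (hxp.add hy1).of_eq rfl
        (eo (by abel_nf <;> simp only [ch2, ch3, ch4, add_zero, zero_add]))
    have hnot : ¬ Ann D z (W + (u + z)) (x + x1) (u + z) := fun h => i4 (hsub1 _ h)
    have hss : {v | Ann D z (W + (u + z)) (x + x1) v} ⊂ {v | Ann D z W p v} := by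
      refine ⟨hsub, fun h => hnot (h i1)⟩
    exact Set.ncard_lt_ncard hss (Set.toFinite _)
  have h5 := hmin _ hnew
  exact absurd (hn.le.trans h5) (not_le.2 hlt)

theorem ann_inf {x z : V} : D.ann x ⊓ D.ann (x + z) = D.ann x ⊓ D.ann z := by
  ext v
  rw [Submodule.mem_inf, Submodule.mem_inf, mem_ann, mem_ann, mem_ann]
  constructor
  · rintro ⟨h1, h2⟩
    exact ⟨h1, (h1.add' h2).of_eq (eo (by abel_nf <;> simp only [ch2, ch3, ch4, add_zero,
      zero_add])) rfl⟩
  · rintro ⟨h1, h2⟩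
    exact ⟨h1, h1.add' h2⟩

/-- (LCZ) makes the elements of maximal rank regular -/
theorem reg_of_LCZ [Finite V] {z : V} (hmin : ∀ w, finrank (ZMod 2) (D.ann z) ≤
    finrank (ZMod 2) (D.ann w)) {w : V} (h : LCZat D z w) {k : V} (hk : C D z k) :
    ∃ p, D.q z p = D.q w k := by
  obtain ⟨u, hu, h⟩ := h
  have h1 : D.ann (w + u) ⊔ D.ann (w + u + z) ≤ D.ann z ⊔ D.ann (w + u + z) := by
    apply sup_le _ le_sup_right
    intro p hp
    obtain ⟨s, hs, hz⟩ := h p hp
    rw [Submodule.mem_sup]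
    exact ⟨p + s, hz, s, hs, by
      exact eo (by abel_nf <;> simp only [ch2, ch3, ch4, add_zero, zero_add])⟩
  have h2 : finrank (ZMod 2) (D.ann z ⊔ D.ann (w + u + z) : Submodule (ZMod 2) V) ≤
      finrank (ZMod 2) (D.ann (w + u) ⊔ D.ann (w + u + z) : Submodule (ZMod 2) V) := by
    have e1 := Submodule.finrank_sup_add_finrank_inf_eq (D.ann (w + u)) (D.ann (w + u + z))
    have e2 := Submodule.finrank_sup_add_finrank_inf_eq (D.ann z) (D.ann (w + u + z))
    have e3 : D.ann z ⊓ D.ann (w + u + z) = D.ann (w + u) ⊓ D.ann (w + u + z) := by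
      rw [ann_inf, show w + u + z = z + (w + u) from add_comm _ _, ann_inf, inf_comm]
    rw [e3] at e2
    have e4 := hmin (w + u)
    omega
  have h3 := Submodule.eq_of_le_of_finrank_le h1 h2
  have h4 : k ∈ D.ann (w + u) ⊔ D.ann (w + u + z) := by
    rw [h3]
    exact Submodule.mem_sup_left hk
  obtain ⟨a, ha, b, hb, rfl⟩ := Submodule.mem_sup.1 h4
  refine ⟨b, ?_⟩
  have ha' : C D (w + u) a := ha
  have hb' : C D (w + u + z) b := hb
  rw [← q_cen hu hk, qaddl ha']
  exact (q_eq'_iff.2 hb').symm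

end Pool.Agent.ETCT
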