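import Pool.Agent.ETCT.TWO
import Pool.Agent.ETC.ToData
import Pool.Agent.REG10.SAll
import Pool.Agent.REG10.ER
import Pool.Agent.REG10.FN.RTC

/-!
Note 2446, quaternionic structures: if all finite structures with `-1 = 1` satisfy (TWO), or (LCZ),
they are of elementary type.
-/

set_option autoImplicit false

namespace Pool.Agent.ETCT

open QS Module
open Pool.Agent.Helper58.PLine (QData)
open Pool.Agent.ETCP

/-- everything commuting with `z` commutes with `u` -/
def CenQ (S : QStruct) (z u : S.G) : Prop := ∀ v, S.q z v = S.zero → S.q u v = S.zero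

/-- law (TWO): if `a, b` are values of `q z`, `a` is a value of `q y` and `b` a value of `q (y z)`,
then there is a central `u` such that `a, b` are values of `q (y u)` -/
def TWO (S : QStruct) (z : S.G) : Prop := ∀ (y : S.G) (a b : S.Q),
  (∃ p, S.q z p = a) → (∃ p, S.q z p = b) → (∃ p, S.q y p = a) → (∃ p, S.q (y * z) p = b) →
  ∃ u, CenQ S z u ∧ (∃ p, S.q (y * u) p = a) ∧ ∃ p, S.q (y * u) p = b

/-- law (LCZ): for all `w` some central `u` has `Q_z ∩ Q_(w + u) ⊆ Q_(w + u + z)` -/
def LCZ (S : QStruct) (z : S.G) : Prop := ∀ w, ∃ u, CenQ S z u ∧ ∀ a : S.Q, (∃ p, S.q z p = a) →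
  (∃ p, S.q (w * u) p = a) → ∃ p, S.q (w * u * z) p = a

/-- `z` has maximal rank -/
def MaxRk (S : QStruct) (z : S.G) : Prop := ∀ w : S.G,
  Nat.card {v // S.q z v = S.zero} ≤ Nat.card {v // S.q w v = S.zero}

theorem exists_maxRk (S : QStruct) [Finite S.G] : ∃ z, MaxRk S z := by
  obtain ⟨z, hz⟩ := Finite.exists_min (fun z : S.G => Nat.card {v // S.q z v = S.zero})
  exact ⟨z, hz⟩

theorem reg_of_LCZQ (S : QStruct) [Finite S.G] {z : S.G} (hm : MaxRk S z) (h : LCZ S z) :
    ∀ w v, S.q z w = S.zero → ∃ x, S.q z x = S.q w v := by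
  let _ : Module (ZMod 2) (Additive S.G) := AddCommGroup.zmodModule (n := 2) (fun x => by
      rw [two_nsmul]; exact S.exp_two (Additive.toMul x))
  have hf : Finite (Additive S.G) := (inferInstance : Finite S.G)
  have key : ∀ w : S.G, Nat.card {v // S.q w v = S.zero} =
      2 ^ finrank (ZMod 2) ((ETC.toData S).ann (Additive.ofMul w)) := by
    intro w
    have h1 := Module.natCard_eq_pow_finrank (K := ZMod 2)
      (V := (ETC.toData S).ann (Additive.ofMul w))
    rw [Nat.card_zmod] at h1
    rw [← h1]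
    rfl
  intro k w hk
  have hmin : ∀ w, finrank (ZMod 2) ((ETC.toData S).ann (Additive.ofMul z)) ≤
      finrank (ZMod 2) ((ETC.toData S).ann w) := by
    intro w
    have h1 := hm (Additive.toMul w)
    rw [key, key] at h1
    exact (Nat.pow_le_pow_iff_right (by norm_num)).1 h1
  have hL : LCZat (ETC.toData S) (Additive.ofMul z) (Additive.ofMul w) := by
    obtain ⟨u, hu, h1⟩ := h (w * z)
    have e0 : w * z * u * z = w * u := by
      rw [mul_assoc w z u, mul_comm z u, ← mul_assoc, mul_assoc (w * u), S.exp_two, mul_one]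
    rw [e0] at h1
    refine ⟨Additive.ofMul u, fun v hv => hu _ hv, fun p hp => ?_⟩
    have hp' : S.q (w * u) (Additive.toMul p) = S.zero := hp
    have e1 : S.q (w * z * u) (Additive.toMul p) = S.q z (Additive.toMul p) := by
      rw [S.qs2, S.qs2 z, S.qs3, mul_assoc w z u, mul_comm z u, ← mul_assoc, mul_assoc (w * u),
        S.exp_two, mul_one, S.qs2]
      exact hp'
    obtain ⟨p', hp2⟩ := h1 (S.q z (Additive.toMul p)) ⟨_, rfl⟩ ⟨_, e1⟩
    have e2 : (ETC.toData S).q (Additive.ofMul (w * u)) (Additive.ofMul p') =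
        (ETC.toData S).q (Additive.ofMul z) p := hp2
    obtain ⟨x, h3, h4, h5⟩ := link e2
    exact ⟨x, h5, h4⟩
  obtain ⟨p, hp⟩ := reg_of_LCZ hmin hL (k := Additive.ofMul k) hk
  exact ⟨Additive.toMul p, by rw [S.qs2 k]; exact hp⟩

/-- (TWO) implies (LCZ) -/
theorem LCZ_of_TWOQ (S : QStruct) [Finite S.G] {z : S.G} (h : TWO S z) : LCZ S z := by
  let _ : Module (ZMod 2) (Additive S.G) := AddCommGroup.zmodModule (n := 2) (fun x => by
      rw [two_nsmul]; exact S.exp_two (Additive.toMul x))
  have hf : Finite (Additive S.G) := (inferInstance : Finite S.G)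
  intro w
  have hT : ∀ y, TWOat (ETC.toData S) (Additive.ofMul z) y := by
    rintro y a b ⟨p, hp⟩ ⟨p1, hp1⟩ ⟨p2, hp2⟩ ⟨p3, hp3⟩
    obtain ⟨u, hu, ⟨r, hr⟩, ⟨r1, hr1⟩⟩ := h (Additive.toMul y) a b ⟨_, hp⟩ ⟨_, hp1⟩ ⟨_, hp2⟩
      ⟨_, hp3⟩
    exact ⟨Additive.ofMul u, fun v hv => hu _ hv, ⟨Additive.ofMul r, hr⟩, Additive.ofMul r1, hr1⟩
  obtain ⟨u, hu, h1⟩ := LCZ_of_TWO hT (Additive.ofMul (w * z))
  refine ⟨Additive.toMul u, fun v hv => hu (Additive.ofMul v) hv, ?_⟩
  have e0 : w * z * Additive.toMul u = w * Additive.toMul u * z := by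
    rw [mul_assoc, mul_comm z, ← mul_assoc]
  rintro a ⟨p, hp⟩ ⟨p1, hp1⟩
  -- `q (z, p) = q (w + u, p1)`
  have e2 : (ETC.toData S).q (Additive.ofMul (w * Additive.toMul u)) (Additive.ofMul p1) =
      (ETC.toData S).q (Additive.ofMul z) (Additive.ofMul p) := hp1.trans hp.symm
  obtain ⟨x, h3, h4, h5⟩ := link e2
  have h6 : C (ETC.toData S) (Additive.ofMul (w * z) + u) x := by
    have h7 : S.q (w * Additive.toMul u * z) (Additive.toMul x) = S.zero := h5
    show S.q (w * z * Additive.toMul u) (Additive.toMul x) = S.zero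
    rw [e0]
    exact h7
  obtain ⟨s, h8, h9⟩ := h1 x h6
  have h8' : S.q (w * Additive.toMul u) (Additive.toMul s) = S.zero := by
    have h10 : S.q (w * z * Additive.toMul u * z) (Additive.toMul s) = S.zero := h8
    rwa [e0, mul_assoc, S.exp_two, mul_one] at h10
  refine ⟨Additive.toMul s, ?_⟩
  have h11 : S.q (w * Additive.toMul u * z) (Additive.toMul s) = S.q z (Additive.toMul s) := by
    rw [S.qs2, S.qs2 z, S.qs3, mul_assoc, S.exp_two, mul_one, S.qs2]
    exact h8'
  have h12 : S.q z (Additive.toMul x) = S.q z (Additive.toMul s) := (S.qs3 _ _ _).2 h9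
  have h13 : S.q z p = S.q z (Additive.toMul x) := (S.qs3 _ _ _).2 h4
  rw [h11, ← h12, ← h13]
  exact hp

/-- all smaller structures with `-1 = 1` are of elementary type -/
def SmallerET (S : QStruct) : Prop := ∀ T : QStruct, Finite T.G → T.neg = 1 →
  Nat.card T.G < Nat.card S.G → ElemType T

/-- induction on the order: only structures all of whose smaller structures are of elementary
type have to be considered -/
theorem etc_of_reg (h : ∀ S : QStruct, Finite S.G → S.neg = 1 → SmallerET S → ¬ ElemType S →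
    ∃ z, REG10.RegE S z) : ∀ S : QStruct, Finite S.G → S.neg = 1 → ElemType S := by
  have key : ∀ (n : ℕ) (S : QStruct), Finite S.G → Nat.card S.G = n → S.neg = 1 →
      ElemType S := by
    intro n
    induction n using Nat.strong_induction_on with
    | _ n ih =>
      intro S hf hn hneg
      by_contra hcon
      have hs : SmallerET S := fun T hT hTn hc => ih _ (by omega) T hT rfl hTn
      exact hcon (REG10.elem_of_smaller REG10.srgx S hneg
        ((REG10.regE_iff S).1 (h S hf hneg hs hcon)) fun T hT hTn hc => hs T hT hTn hc)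
  exact fun S hf hneg => key _ S hf rfl hneg

/-- it is enough that in a minimal structure which is not of elementary type some element of
maximal rank satisfies (LCZ) -/
theorem etc_of_LCZ (h : ∀ S : QStruct, Finite S.G → S.neg = 1 → SmallerET S → ¬ ElemType S →
    ∃ z, MaxRk S z ∧ LCZ S z) : ∀ S : QStruct, Finite S.G → S.neg = 1 → ElemType S := by
  apply etc_of_reg
  intro S hf hneg hs hc
  obtain ⟨z, hm, hz⟩ := h S hf hneg hs hc
  exact ⟨z, reg_of_LCZQ S hm hz⟩

/-- it is enough that in a minimal structure which is not of elementary type some element of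
maximal rank satisfies (TWO) -/
theorem etc_of_TWO (h : ∀ S : QStruct, Finite S.G → S.neg = 1 → SmallerET S → ¬ ElemType S →
    ∃ z, MaxRk S z ∧ TWO S z) : ∀ S : QStruct, Finite S.G → S.neg = 1 → ElemType S := by
  apply etc_of_LCZ
  intro S hf hneg hs hc
  obtain ⟨z, hm, hz⟩ := h S hf hneg hs hc
  exact ⟨z, hm, LCZ_of_TWOQ S hz⟩

end Pool.Agent.ETCT
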